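import Pool.Agent.MP_ed46bc_co.K3.Spec

/-!
# Row CON: the construction in a cyclic group
-/

namespace Pool.Agent.MP_ed46bc_co.K3

open Finset Pool.Agent.MP_ed46bc_co.SP

universe u

lemma con_card (q v : ℕ) [NeZero q] (c : ZMod q) (hv : v ≤ q) :
    (univ.filter fun x : ZMod q => (x - c).val < v).card = v := by
  conv_rhs => rw [← card_range v]
  refine card_bij (fun x _ => (x - c).val) (fun x hx => mem_range.2 (mem_filter.1 hx).2)
    (fun x _ y _ h => sub_left_injective (ZMod.val_injective q h)) fun j hj => ?_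
  have e : (c + (j : ZMod q) - c).val = j := by
    rw [add_sub_cancel_left, ZMod.val_natCast_of_lt ((mem_range.1 hj).trans_le hv)]
  exact ⟨c + (j : ZMod q), mem_filter.2 ⟨mem_univ _, by rw [e]; exact mem_range.1 hj⟩, e⟩

lemma con_free {G : Type u} [AddCommGroup G] [Fintype G] [DecidableEq G] {Q : Type}
    [AddCommGroup Q] (p : G →+ Q) {S : Finset G} {y : Q} (hS : ∀ x ∈ S, p x = y)
    (hy : y + y ≠ 0) : P4 S = 0 := by
  unfold P4 Q4
  refine sum_eq_zero fun a _ => sum_eq_zero fun b _ => sum_eq_zero fun d _ => ?_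
  by_cases ha : a ∈ S
  swap
  · simp [ind_of_not_mem ha]
  by_cases hb : b ∈ S
  swap
  · simp [ind_of_not_mem hb]
  by_cases hd : d ∈ S
  swap
  · simp [ind_of_not_mem hd]
  have : a + b + d ∉ S := fun h => hy (by
    have e := hS _ h
    rw [map_add, map_add, hS a ha, hS b hb, hS d hd] at e
    exact add_eq_right.1 e)
  simp [ind_of_not_mem this]

theorem con (h1 : ZQ) (h2 : FIB.{u}) (h3 : CYC.{u}) : CON.{u} := by
  intro G _ _ _ hc k h v r hn hv hr h4
  obtain ⟨p, hp, hk, hS⟩ := h3 G hc k (2 * h + 1) hn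
  have hq : (2 * (h : ZMod (2 * h + 1)) + 1) = 0 := by
    exact_mod_cast ZMod.natCast_self (2 * h + 1)
  obtain ⟨c, hc0⟩ : ∃ c : ZMod (2 * h + 1), 2 * c + ((v + h : ℕ) : ZMod (2 * h + 1)) = 0 :=
    ⟨-(((h : ZMod (2 * h + 1)) + 1) * (v + h)), by
      push_cast
      linear_combination (-((v : ZMod (2 * h + 1)) + h)) * hq⟩
  have hc1 := hc0
  push_cast at hc1
  obtain ⟨y, hy⟩ : ∃ y : ZMod (2 * h + 1), y = c + v := ⟨_, rfl⟩
  have hval : ∀ x : ZMod (2 * h + 1), (x - c).val = v ↔ x = y := by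
    intro x
    constructor
    · intro e
      rw [hy, ← e, ZMod.natCast_zmod_val, add_sub_cancel]
    · rintro rfl
      rw [hy, add_sub_cancel_left, ZMod.val_natCast_of_lt (by omega)]
  have hyy : y + y = 0 ↔ v = h := by
    have e : y + y = (v : ZMod (2 * h + 1)) - h := by rw [hy]; linear_combination hc1
    rw [e, sub_eq_zero]
    refine ⟨fun e' => ?_, fun e' => by rw [e']⟩
    have := congrArg ZMod.val e'
    rwa [ZMod.val_natCast_of_lt (by omega), ZMod.val_natCast_of_lt (by omega)] at this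
  obtain ⟨S, s1, s2, s3⟩ : ∃ S : Finset G, (∀ x ∈ S, p x = y) ∧ S.card = r ∧ P4 S = 0 := by
    by_cases e : v = h
    · have y0 : y = 0 := by
        linear_combination ((h : ZMod (2 * h + 1)) + 1) * hyy.2 e - y * hq
      rw [y0]
      exact hS r (h4 e)
    · obtain ⟨S, a, b⟩ := exists_subset_card_eq (s := univ.filter fun x => p x = y) (n := r)
        (by rw [card_fib hp, hk]; exact hr)
      have a' : ∀ x ∈ S, p x = y := fun x hx => (mem_filter.1 (a hx)).2
      exact ⟨S, a', b, con_free p a' fun e' => e (hyy.1 e')⟩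
  obtain ⟨W, hW⟩ : ∃ W : Finset (ZMod (2 * h + 1)), W = univ.filter fun x => (x - c).val < v :=
    ⟨_, rfl⟩
  have mW : ∀ x, x ∈ W ↔ (x - c).val < v := fun x => by simp [hW]
  have yW : y ∉ W := by rw [mW, (hval y).2 rfl]; exact lt_irrefl _
  have dj : Disjoint (pre p W) S := by
    rw [disjoint_right]
    intro x hx h'
    exact yW (s1 x hx ▸ mem_pre.1 h')
  have cw : cnt p (pre p W ∪ S) = wt (2 * h + 1) k r v c := by
    funext x
    rw [cnt_union p dj, cnt_pre hp, hk, wt]
    have cS : cnt p S x = if x = y then (r : ℤ) else 0 := by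
      unfold cnt
      split_ifs with e
      · rw [filter_true_of_mem fun z hz => (s1 z hz).trans e.symm, s2]
      · rw [filter_false_of_mem fun z hz e' => e (e'.symm.trans (s1 z hz))]; rfl
    rw [cS]
    by_cases e : x = y
    · have e' := (hval y).2 rfl
      simp [mW, e', e]
    · have e' : ¬ (x - c).val = v := fun a => e ((hval x).1 a)
      simp [mW, e', e]
  refine ⟨pre p W ∪ S, ?_, ?_⟩
  · rw [card_union_of_disjoint dj, card_pre hp, hk, s2, hW, con_card _ _ _ (by omega), mul_comm]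
  · have f1 := h2 G _ p W S y hp yW s1
    have f2 := h1 h v k r c hv (by positivity) (by exact_mod_cast hr) hc0
    rw [cw, hk, s3, s2] at f1
    by_cases e : v = h
    · rw [if_pos (hyy.2 e)] at f1
      rw [if_pos e] at f2 ⊢
      linarith
    · rw [if_neg fun a => e (hyy.1 a)] at f1
      rw [if_neg e] at f2 ⊢
      linarith

end Pool.Agent.MP_ed46bc_co.K3
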