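import Pool.Agent.MP_ed46bc_co.K3.Spec

/-! Row CORE: the lower bound at the largest scale. -/

namespace Pool.Agent.MP_ed46bc_co.K3

open Finset Pool.Agent.MP_ed46bc_co.SP
open scoped symmDiff

universe u

/-- Jumps of the slopes. -/
def coreJ (k u α β N : ℕ) : ℤ :=
  if N = 0 then (α : ℤ)
  else (k : ℤ) - (if N = 1 then (β : ℤ) else 0) - (if N = u then (α : ℤ) + β else 0)

/-- Break points. -/
def coreC (k d β N : ℕ) : ℕ := if N = 0 then 2 * d * k + 2 * β else 2 * (d + N) * k

/-- Tail bounds. -/
def coreB (k h u α β N : ℕ) : ℤ :=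
  if N = 0 then bb k h u α β 0 * max (bb k h u α β 0 - 2 * β) 0 else max (bb k h u α β N) 0 ^ 2

lemma core_id (k d u α β : ℕ) (t : ℤ) (m : ℕ) (hm : m ≤ u) :
    ∑ N ∈ range (m + 1), coreJ k u α β N * (t - coreC k d β N) =
      lam k u α β m * (t - 2 * ((d : ℤ) + m) * k) + (k : ℤ) * om k α β m - 2 * (α : ℤ) * β := by
  induction m with
  | zero => simp [coreJ, coreC, lam, om]; ring
  | succ m ih =>
    rw [sum_range_succ, ih (by omega)]
    have h1 : m ≠ u := by omega
    rcases Nat.eq_zero_or_pos m with rfl | h0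
    · by_cases h2 : 1 = u
      · subst h2
        simp [coreJ, coreC, lam, om]; ring
      · simp [coreJ, coreC, lam, om, h2]; ring
    · have h3 : m ≠ 0 := by omega
      by_cases h2 : m + 1 = u <;> simp only [coreJ, coreC, lam, om, h1, h2, h3, if_true, if_false,
        Nat.add_eq_zero_iff, one_ne_zero, and_false, Nat.add_eq_right] <;> push_cast
      · have h4 : u ≠ 0 := by omega
        have h5 : u ≠ 1 := by omega
        have h6 : (u : ℤ) = m + 1 := by omega
        simp only [h4, h5, if_false]
        push_cast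
        rw [h6]; ring
      · ring

lemma core_mono (k d β : ℕ) (hb : β ≤ k) {N m : ℕ} (h : N ≤ m + 1) :
    coreC k d β N ≤ coreC k d β (m + 1) := by
  unfold coreC
  rw [if_neg (Nat.succ_ne_zero m)]
  split_ifs with h1
  · nlinarith [Nat.zero_le (m * k)]
  · exact Nat.mul_le_mul_right _ (by omega)

lemma core_sum (k h u α β : ℕ) (hu : 1 ≤ u) :
    ∑ N ∈ range (u + 1), coreJ k u α β N * coreB k h u α β N = core k h u α β := by
  have e : range (u + 1) = insert 0 (Icc 1 u) := by
    ext x; simp only [mem_range, mem_insert, mem_Icc]; omega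
  rw [e, sum_insert (by simp)]
  have e2 : ∀ N ∈ Icc 1 u, coreJ k u α β N * coreB k h u α β N =
      (k : ℤ) * max (bb k h u α β N) 0 ^ 2
        - (if N = 1 then (β : ℤ) * max (bb k h u α β N) 0 ^ 2 else 0)
        - (if N = u then ((α : ℤ) + β) * max (bb k h u α β N) 0 ^ 2 else 0) := by
    intro N hN
    have : N ≠ 0 := by rw [mem_Icc] at hN; omega
    simp only [coreJ, coreB, this, if_false]
    split_ifs <;> ring
  rw [sum_congr rfl e2, sum_sub_distrib, sum_sub_distrib, sum_ite_eq', sum_ite_eq', ← mul_sum,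
    if_pos (mem_Icc.2 ⟨le_rfl, hu⟩), if_pos (mem_Icc.2 ⟨hu, le_rfl⟩)]
  simp only [coreJ, coreB, core, if_true]
  ring

theorem core_thm (hC : COUNT.{u}) (hR : REARR.{u}) (hT : TAIL.{u}) (hP : PRIM.{u})
    (hL : LBW.{u}) : CORE.{u} := by
  intro G _ _ _ Q _ _ _ f A W k h u α β hSc hk hq hu huh hα hβ h2
  have hf := hSc.1
  have hu1 : 1 ≤ u := hu ▸ card_pos.2 hSc.2.1
  have hab : 2 * (α + β) < k := by
    have := hSc.2.2.2.1
    rw [card_symmDiff_eq, hα, hβ, hk] at this
    exact this
  have hA : (A.card : ℤ) = (u : ℤ) * k + α - β := by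
    have h1 := card_sdiff_int A (pre f W)
    rw [hα, hβ, card_pre_int hf, hk, hu] at h1
    linarith
  have hn : Fintype.card G = k * (2 * h + 1) := by rw [card_G hf, hk, hq]
  have hPr : Prim W := hP G Q f A W hSc (by omega)
  obtain ⟨d, rfl⟩ := Nat.exists_eq_add_of_le' huh
  have hLm := hL G Q f A W k (d + u) u α β hf hk hq hu hu1 huh hα hβ hab hPr
  rw [(hC G A).2.1, ← core_sum k (d + u) u α β hu1]
  refine hR G _ _ (range (u + 1)) (coreJ k u α β) (coreB k (d + u) u α β) (coreC k d β)
    (fun v => L_nonneg _ _ _) ?_ ?_ ?_ ?_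
  · intro i _
    unfold coreJ
    split_ifs <;> omega
  · intro i hi
    rw [mem_range] at hi
    obtain ⟨m, rfl⟩ := Nat.exists_eq_add_of_le' hu1
    refine (core_mono k d β (by omega) (m := m) (by omega)).trans ?_
    rw [hn]; unfold coreC
    rw [if_neg (by omega)]
    nlinarith
  · intro C
    have h0 : (0 : ℤ) ≤ ∑ v ∈ C, L A (ng A) v := sum_nonneg fun v _ => L_nonneg _ _ _
    have lin : ∀ m, m ≤ u → ∑ N ∈ range (m + 1), coreJ k u α β N * ((C.card : ℤ) - coreC k d β N)
        ≤ ∑ v ∈ C, L A (ng A) v := fun m hm => by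
      rw [core_id k d u α β _ m hm]
      have := hLm m hm C
      have e : (((d + u : ℕ) : ℤ) - u + m) = (d : ℤ) + m := by push_cast; ring
      rwa [e] at this
    have key : ∀ m, m ≤ u →
        ∑ N ∈ range (m + 1), coreJ k u α β N * max ((C.card : ℤ) - coreC k d β N) 0
          ≤ ∑ v ∈ C, L A (ng A) v := by
      intro m
      induction m with
      | zero =>
        intro hm
        rcases le_total ((C.card : ℤ) - coreC k d β 0) 0 with h3 | h3
        · rw [sum_range_one, max_eq_right h3, mul_zero]; exact h0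
        · have := lin 0 hm
          rw [sum_range_one] at this ⊢
          rwa [max_eq_left h3]
      | succ m ih =>
        intro hm
        rcases le_total ((C.card : ℤ) - coreC k d β (m + 1)) 0 with h3 | h3
        · rw [sum_range_succ, max_eq_right h3, mul_zero, add_zero]; exact ih (by omega)
        · refine le_trans (le_of_eq (sum_congr rfl fun N hN => ?_)) (lin (m + 1) hm)
          rw [mem_range] at hN
          have := core_mono k d β (by omega) (N := N) (m := m) (by omega)
          rw [max_eq_left (by omega)]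
    exact key u le_rfl
  · intro i _ C hc
    have h0 : (0 : ℤ) ≤ ∑ v ∈ Cᶜ, L A A v := sum_nonneg fun v _ => L_nonneg _ _ _
    have e1 : 4 * ∑ v ∈ Cᶜ, L A A v = (2 * (A.card : ℤ) - C.card) ^ 2 - Gam A A C := by
      rw [← T_eq_sum_L, T_compl1, T_swap12 C, T_swap23 A C]
      unfold Gam; ring
    have eb : ∀ N : ℕ, bb k (d + u) u α β N = (A.card : ℤ) - ((d : ℤ) + N) * k := fun N => by
      rw [hA]; unfold bb; push_cast; ring
    unfold coreB
    unfold coreC at hc
    split_ifs with hi
    · rw [if_pos hi] at hc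
      rcases le_total (bb k (d + u) u α β 0 - 2 * β) 0 with h3 | h3
      · rw [max_eq_right h3, mul_zero]; exact h0
      · rw [max_eq_left h3]
        have hc' : (C.card : ℤ) = 2 * d * k + 2 * β := by exact_mod_cast hc
        rw [eb] at h3 ⊢
        have h4 : C.card ≤ 2 * A.card := by
          have : (C.card : ℤ) ≤ 2 * A.card := by push_cast at h3; nlinarith
          exact_mod_cast this
        have h5 := hT G Q f A W hSc h2 C d β (by rw [hk]; exact hc) h4
        rw [hc'] at e1
        push_cast
        nlinarith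
    · rw [if_neg hi] at hc
      rcases le_total (bb k (d + u) u α β i) 0 with h3 | h3
      · rw [max_eq_right h3]; simpa using h0
      · rw [max_eq_left h3]
        have hc' : (C.card : ℤ) = 2 * (d + i) * k := by exact_mod_cast hc
        rw [eb] at h3 ⊢
        have h4 : C.card ≤ 2 * A.card := by
          have : (C.card : ℤ) ≤ 2 * A.card := by nlinarith
          exact_mod_cast this
        have h5 := hT G Q f A W hSc h2 C (d + i) 0 (by rw [hk]; simpa using hc) h4
        rw [hc'] at e1
        push_cast at h5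
        nlinarith

end Pool.Agent.MP_ed46bc_co.K3
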