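import Pool.Agent.MP_ed46bc_co.K3.Spec

/-!
# Row COUNT: three descriptions of the number of solutions of `x + y + z = w`
-/

namespace Pool.Agent.MP_ed46bc_co.K3

open Finset Pool.Agent.MP_ed46bc_co.SP

universe u

variable {G : Type u} [AddCommGroup G] [Fintype G] [DecidableEq G]

omit [DecidableEq G] in
lemma count_swap12 (f g h k : G → ℤ) : Q4 f g h k = Q4 g f h k := by
  unfold Q4
  rw [sum_comm]
  refine sum_congr rfl fun x _ => sum_congr rfl fun y _ => sum_congr rfl fun z _ => ?_
  rw [add_comm y x]; ring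

omit [DecidableEq G] in
lemma count_swap23 (f g h k : G → ℤ) : Q4 f g h k = Q4 f h g k := by
  unfold Q4
  refine sum_congr rfl fun x _ => ?_
  rw [sum_comm]
  refine sum_congr rfl fun y _ => sum_congr rfl fun z _ => ?_
  rw [add_right_comm x z y]; ring

omit [DecidableEq G] in
lemma count_one4 (f g h : G → ℤ) :
    Q4 f g h (fun _ => 1) = (∑ x, f x) * (∑ x, g x) * ∑ x, h x := by
  unfold Q4
  simp only [mul_one, ← mul_sum, ← sum_mul]

omit [DecidableEq G] in
lemma count_one3 (f g k : G → ℤ) :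
    Q4 f g (fun _ => 1) k = (∑ x, f x) * (∑ x, g x) * ∑ x, k x := by
  unfold Q4
  have e : ∀ t : G, ∑ z, k (t + z) = ∑ z, k z := fun t => Equiv.sum_comp (Equiv.addLeft t) k
  simp only [mul_one, ← mul_sum, e, ← sum_mul]

omit [DecidableEq G] in
lemma count_sub4 (f g h a : G → ℤ) :
    Q4 f g h (fun x => 1 - a x) = Q4 f g h (fun _ => 1) - Q4 f g h a := by
  unfold Q4
  simp only [mul_sub, sum_sub_distrib]

omit [DecidableEq G] in
lemma count_sub3 (f g k a : G → ℤ) :
    Q4 f g (fun x => 1 - a x) k = Q4 f g (fun _ => 1) k - Q4 f g a k := by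
  unfold Q4
  simp only [mul_sub, sub_mul, sum_sub_distrib]

lemma count_fin (A : Finset G) :
    (((univ.filter fun a : Fin 3 → G => (∀ i, a i ∈ A) ∧ ∑ i, a i ∈ A).card : ℕ) : ℤ) = P4 A := by
  let e : G × G × G ≃ (Fin 3 → G) :=
    ⟨fun p => ![p.1, p.2.1, p.2.2], fun a => (a 0, a 1, a 2), fun _ => rfl, fun a => by
      funext i; fin_cases i <;> rfl⟩
  rw [card_filter]
  push_cast
  rw [← Equiv.sum_comp e, Fintype.sum_prod_type]
  unfold P4 Q4
  refine sum_congr rfl fun x _ => ?_
  rw [Fintype.sum_prod_type]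
  refine sum_congr rfl fun y _ => sum_congr rfl fun z _ => ?_
  have h1 : (∀ i, e (x, y, z) i ∈ A) ↔ x ∈ A ∧ y ∈ A ∧ z ∈ A := by
    rw [Fin.forall_fin_succ, Fin.forall_fin_succ, Fin.forall_fin_one]; rfl
  have h2 : ∑ i, e (x, y, z) i = x + y + z := by rw [Fin.sum_univ_three]; rfl
  rw [h2]
  simp only [h1, ind]
  by_cases a : x ∈ A <;> by_cases b : y ∈ A <;> by_cases c : z ∈ A <;>
    by_cases d : x + y + z ∈ A <;> simp [a, b, c, d]

lemma count_L (A : Finset G) : P4 A = ∑ v, L A A v * L A (ng A) v := by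
  have e2 : ∀ v : G, L A (ng A) v = ∑ w, ind A w * ind A (-v + w) := fun v => by
    unfold L
    rw [← Equiv.sum_comp (Equiv.addLeft v) fun w => ind A w * ind A (-v + w)]
    refine sum_congr rfl fun z _ => ?_
    have h : ind (ng A) (-v - z) = ind A (v + z) := by
      have : -(-v - z) = v + z := by abel
      simp only [ind, mem_ng, this]
    rw [h, Equiv.coe_addLeft, neg_add_cancel_left, mul_comm]
  simp only [e2]
  unfold L P4 Q4
  simp only [sum_mul]
  rw [sum_comm, sum_comm (f := fun v y => ind A y * ind A (-v - y) * _)]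
  refine sum_congr rfl fun y _ => ?_
  rw [← Equiv.sum_comp ((Equiv.neg G).trans (Equiv.subRight y))]
  refine sum_congr rfl fun v _ => ?_
  rw [mul_sum]
  refine sum_congr rfl fun w _ => ?_
  simp only [Equiv.trans_apply, Equiv.neg_apply, Equiv.subRight_apply, sub_add_cancel]
  ring

lemma count_compl (A : Finset G) :
    (Fintype.card G : ℤ) * P4 Aᶜ =
      (Fintype.card G : ℤ) * P4 A + ((Fintype.card G : ℤ) - A.card) ^ 4 - (A.card : ℤ) ^ 4 := by
  have hb : ∑ x, (1 - ind A x) = (Fintype.card G : ℤ) - A.card := by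
    rw [sum_sub_distrib, sum_ind]; simp
  unfold P4
  rw [ind_compl, count_sub3, count_one3, count_swap23 _ _ (ind A), count_sub3, count_one3,
    count_swap12 _ (ind A), count_swap23 _ _ (ind A), count_sub3, count_one3, count_sub4,
    count_one4, hb, sum_ind]
  ring

theorem count_thm : COUNT.{u} := fun _ _ _ _ A => ⟨count_fin A, count_L A, count_compl A⟩

end Pool.Agent.MP_ed46bc_co.K3
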