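import Pool.Agent.MP_ed46bc_co.K3.Spec

/-!
# Passing to fibre sizes
-/

namespace Pool.Agent.MP_ed46bc_co.K3

open Finset Pool.Agent.MP_ed46bc_co.SP

universe u v

variable {G : Type u} [AddCommGroup G] [Fintype G] [DecidableEq G]
variable {Q : Type v} [AddCommGroup Q] [Fintype Q] [DecidableEq Q]

set_option linter.unusedSectionVars false

lemma fib_swap12 (a b c d : G → ℤ) : Q4 a b c d = Q4 b a c d := by
  unfold Q4
  rw [sum_comm]
  refine sum_congr rfl fun y _ => sum_congr rfl fun x _ => sum_congr rfl fun z _ => ?_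
  rw [add_comm x y]; ring

lemma fib_swap23 (a b c d : G → ℤ) : Q4 a b c d = Q4 a c b d := by
  unfold Q4
  refine sum_congr rfl fun x _ => ?_
  rw [sum_comm]
  refine sum_congr rfl fun z _ => sum_congr rfl fun y _ => ?_
  rw [add_right_comm x y z]; ring

lemma fib_sub (a b c d e : G → ℤ) :
    Q4 a b c (fun w => d w - e w) = Q4 a b c d - Q4 a b c e := by
  simp only [Q4, mul_sub, sum_sub_distrib]

lemma fib_kill {p : G → ℤ} {h : G} (hp : ∀ x, p (x + h) = p x) (a b c s : G → ℤ) :
    Q4 a b (fun x => p x + c x) (fun w => s w - s (w + h)) =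
      Q4 a b c fun w => s w - s (w + h) := by
  unfold Q4
  refine sum_congr rfl fun x _ => sum_congr rfl fun y _ => ?_
  have e : ∑ z, p z * s (x + y + z) = ∑ z, p z * s (x + y + z + h) := by
    rw [← Equiv.sum_comp (Equiv.addRight h)]
    exact sum_congr rfl fun z _ => by rw [Equiv.coe_addRight, hp, add_assoc (x + y)]
  have e' : ∀ z, a x * b y * (p z + c z) * (s (x + y + z) - s (x + y + z + h)) =
      a x * b y * c z * (s (x + y + z) - s (x + y + z + h)) +
        a x * b y * (p z * s (x + y + z) - p z * s (x + y + z + h)) := fun z => by ring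
  simp only [e']
  rw [sum_add_distrib, ← mul_sum, sum_sub_distrib, e, sub_self, mul_zero, add_zero]

lemma fib_shift {p : G → ℤ} {h : G} (hp : ∀ x, p (x + h) = p x) {a s : G → ℤ}
    (ha : a = fun x => p x + s x) :
    Q4 a a a a - Q4 a a a (fun w => a (w + h)) = Q4 s s s s - Q4 s s s fun w => s (w + h) := by
  have e : (fun w => a w - a (w + h)) = fun w => s w - s (w + h) := by
    funext w; rw [ha]; simp only [hp]; ring
  rw [← fib_sub, ← fib_sub, e]
  have e1 : ∀ b c, Q4 b c a (fun w => s w - s (w + h)) = Q4 b c s fun w => s w - s (w + h) :=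
    fun b c => by rw [ha]; exact fib_kill hp b c s s
  rw [e1, fib_swap23, e1, fib_swap12, fib_swap23, e1]

lemma fib_push (f : G →+ Q) (X : Finset G) (g : Q → ℤ) :
    ∑ i, cnt f X i * g i = ∑ x, ind X x * g (f x) := by
  rw [sum_ind_mul, ← sum_fiberwise X f]
  refine sum_congr rfl fun i _ => ?_
  rw [sum_congr rfl (g := fun _ => g i) (fun x hx => by rw [(mem_filter.1 hx).2]), sum_const,
    nsmul_eq_mul]
  rfl

lemma fib_cnt (f : G →+ Q) (X : Finset G) (w : G) :
    cnt f X (f w) = ∑ h ∈ univ.filter fun h => f h = 0, ind X (w + h) := by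
  have e : ∑ h ∈ univ.filter fun h => f h = 0, ind X (w + h) =
      (((univ.filter fun h => f h = 0).filter fun h => w + h ∈ X).card : ℤ) := by
    simp only [ind, card_filter]; push_cast; rfl
  rw [e]
  unfold cnt
  congr 1
  refine card_bij (fun x _ => x - w) (fun x hx => ?_) (fun x _ y _ h => sub_left_injective h)
    fun h hh => ⟨w + h, ?_, add_sub_cancel_left w h⟩
  · simp only [mem_filter, mem_univ, true_and] at hx ⊢
    exact ⟨by rw [map_sub, hx.2, sub_self], by rw [add_sub_cancel]; exact hx.1⟩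
  · simp only [mem_filter, mem_univ, true_and] at hh ⊢
    exact ⟨hh.2, by rw [map_add, hh.1, add_zero]⟩

lemma fib_q (f : G →+ Q) (X : Finset G) :
    Q4 (cnt f X) (cnt f X) (cnt f X) (cnt f X) = ∑ h ∈ univ.filter fun h => f h = 0,
      Q4 (ind X) (ind X) (ind X) fun w => ind X (w + h) := by
  have e : Q4 (cnt f X) (cnt f X) (cnt f X) (cnt f X) =
      Q4 (ind X) (ind X) (ind X) fun w => cnt f X (f w) := by
    simp only [Q4, mul_assoc, ← mul_sum, map_add]
    rw [fib_push]
    refine sum_congr rfl fun x _ => ?_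
    rw [fib_push]
    congr 1
    refine sum_congr rfl fun y _ => ?_
    rw [fib_push f X fun l => cnt f X (f x + f y + l)]
  rw [e]
  simp only [Q4, fib_cnt, mul_sum]
  rw [sum_comm (s := univ.filter fun h => f h = 0)]
  refine sum_congr rfl fun x _ => ?_
  rw [sum_comm (s := univ.filter fun h => f h = 0)]
  refine sum_congr rfl fun y _ => ?_
  rw [sum_comm (s := univ.filter fun h => f h = 0)]

lemma fib_one {f : G →+ Q} {S : Finset G} {y : Q} (h : ∀ x ∈ S, f x = y) :
    Q4 (cnt f S) (cnt f S) (cnt f S) (cnt f S) = if y + y = 0 then (S.card : ℤ) ^ 4 else 0 := by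
  have e : cnt f S = fun i => if i = y then (S.card : ℤ) else 0 := by
    funext i
    unfold cnt
    split_ifs with hi
    · rw [filter_true_of_mem fun x hx => (h x hx).trans hi.symm]
    · rw [filter_false_of_mem fun x hx e => hi (e.symm.trans (h x hx))]; rfl
  have e' : ∀ g : Q → ℤ, ∑ i, cnt f S i * g i = S.card * g y := fun g => by
    simp only [e, ite_mul, zero_mul, sum_ite_eq', mem_univ, if_true]
  simp only [Q4, mul_assoc, ← mul_sum]
  rw [e', e', e', e]
  simp only [add_eq_right]
  split_ifs <;> ring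

theorem fib : FIB.{u} := by
  intro G _ _ _ Q _ _ _ f W S y hf hy hS
  have ha : ind (pre f W ∪ S) = fun x => ind W (f x) + ind S x := by
    funext x
    by_cases h : x ∈ S
    · rw [ind_of_mem (mem_union_right _ h), ind_of_mem h, hS x h, ind_of_not_mem hy, zero_add]
    · rw [ind_of_not_mem h, add_zero, ← ind_pre]
      simp only [ind, mem_union, h, or_false]
  have key : ∑ h ∈ univ.filter fun h => f h = 0, (P4 (pre f W ∪ S) -
      Q4 (ind (pre f W ∪ S)) (ind (pre f W ∪ S)) (ind (pre f W ∪ S))
        fun w => ind (pre f W ∪ S) (w + h)) = ∑ h ∈ univ.filter fun h => f h = 0,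
      (P4 S - Q4 (ind S) (ind S) (ind S) fun w => ind S (w + h)) :=
    sum_congr rfl fun h hh => fib_shift (p := fun x => ind W (f x))
      (fun x => by simp only [map_add, (mem_filter.1 hh).2, add_zero]) ha
  rw [sum_sub_distrib, sum_sub_distrib, ← fib_q, ← fib_q, fib_one hS, sum_const, sum_const,
    card_fib hf, nsmul_eq_mul, nsmul_eq_mul] at key
  linarith

end Pool.Agent.MP_ed46bc_co.K3
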