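import Pool.Agent.MP_ed46bc_co.K3.Spec

/-! The two bounds in closed form. -/

namespace Pool.Agent.MP_ed46bc_co.K3

open Finset Pool.Agent.MP_ed46bc_co.SP
open scoped symmDiff

universe u

/-- Signed distance from `m` to the nearest multiple of `κ`. -/
def near (m κ : ℕ) : ℤ := (m : ℤ) - κ * ((2 * m + κ) / (2 * κ) : ℕ)

/-- The gain of the divisor `κ`. -/
def gain (n m κ : ℕ) : ℤ :=
  (4 * (m : ℤ) - n) * ((κ : ℤ) ^ 2 - 12 * |near m κ| * (κ - |near m κ|))
    - 4 * near m κ * (κ - |near m κ|) * (κ - 2 * |near m κ|)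
    + (if n < 2 * m + κ then 24 * near m κ ^ 3 else 0)

/-- The closed formula. -/
def Phi (n m : ℕ) : ℤ :=
  max 0 ((4 * (m : ℤ) - n) ^ 3 - (n.properDivisors.sup fun κ => (gain n m κ).toNat : ℕ))

lemma fin_near {m k u : ℕ} {s : ℤ} (hm : (m : ℤ) = (u : ℤ) * k + s) (hs : 2 * |s| < k) :
    near m k = s := by
  have h1 := le_abs_self s
  have h2 := neg_abs_le s
  have hk : 0 < k := by have := abs_nonneg s; omega
  have : (2 * m + k) / (2 * k) = u := by
    rw [Nat.div_eq_iff (by omega)]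
    constructor
    · have : (u : ℤ) * (2 * k) ≤ 2 * m + k := by nlinarith
      exact_mod_cast this
    · have : (2 * m + k : ℤ) + 1 ≤ (u : ℤ) * (2 * k) + 2 * k := by nlinarith
      have h3 : 2 * m + k + 1 ≤ u * (2 * k) + 2 * k := by exact_mod_cast this
      omega
  unfold near
  rw [this, hm]; ring

lemma fin_gain {n m k h u : ℕ} {s : ℤ} (hn : n = k * (2 * h + 1))
    (hm : (m : ℤ) = (u : ℤ) * k + s) (hs : 2 * |s| < k) :
    gain n m k = gainZ (4 * (m : ℤ) - (2 * (h : ℤ) + 1) * k) k s ((h : ℤ) * k < m) := by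
  unfold gain gainZ
  rw [fin_near hm hs]
  have e : (n : ℤ) = (2 * (h : ℤ) + 1) * k := by rw [hn]; push_cast; ring
  have c : n < 2 * m + k ↔ (h : ℤ) * k < m := by
    rw [← Nat.cast_lt (α := ℤ), e]; push_cast
    constructor <;> intro h1 <;> nlinarith
  rw [e]
  simp only [c]

lemma fin_gain_one {n m : ℕ} : gain n m 1 = 4 * (m : ℤ) - n := by
  have : near m 1 = 0 := fin_near (u := m) (by simp) (by simp)
  unfold gain
  rw [this]; simp

lemma fin_le_sup {n m k : ℕ} (hk : k ∈ n.properDivisors) :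
    gain n m k ≤ ((n.properDivisors.sup fun κ => (gain n m κ).toNat : ℕ) : ℤ) := by
  have : (gain n m k).toNat ≤ n.properDivisors.sup fun κ => (gain n m κ).toNat :=
    le_sup (f := fun κ => (gain n m κ).toNat) hk
  omega

variable {G : Type u} [AddCommGroup G] [Fintype G] [DecidableEq G]

lemma fin_nonneg (hC : COUNT.{u}) (A : Finset G) : 0 ≤ P4 A := by
  rw [← (hC G A).1]; positivity

theorem fin_low (hC : COUNT.{u}) (hS : SCALE.{u}) (hK : CORE.{u}) (hN : NUM)
    (hodd : Odd (Fintype.card G)) (A : Finset G) (h2 : 2 * A.card ≤ Fintype.card G) :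
    Phi (Fintype.card G) A.card ≤ 24 * P4 A := by
  have h0 := fin_nonneg hC A
  unfold Phi
  refine max_le (by omega) ?_
  rcases le_or_gt (4 * (A.card : ℤ) - Fintype.card G) 0 with hX | hX
  · have : (4 * (A.card : ℤ) - Fintype.card G) ^ 3 ≤ 0 := Odd.pow_nonpos (by decide) hX
    omega
  have hne : A.Nonempty := card_pos.1 (by omega)
  have hnu : A ≠ univ := by
    rintro rfl
    rw [card_univ] at h2
    have := Fintype.card_pos (α := G)
    omega
  obtain ⟨Q, _, _, _, f, W, hSc⟩ := hS G A hne hnu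
  have hf := hSc.1
  have hn := card_G hf
  set k := Nat.card f.ker with hk
  have hq : Odd (Fintype.card Q) := by
    rw [hn] at hodd; exact (Nat.odd_mul.1 hodd).2
  obtain ⟨h, hh⟩ := hq
  set α := (A \ pre f W).card with hα
  set β := (pre f W \ A).card with hβ
  have hab : 2 * (α + β) < k := by
    have := hSc.2.2.2.1
    rwa [card_symmDiff_eq] at this
  have hA : (A.card : ℤ) = (W.card : ℤ) * k + α - β := by
    have h1 := card_sdiff_int A (pre f W)
    rw [card_pre_int hf] at h1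
    linarith
  have hu1 : 1 ≤ W.card := card_pos.2 hSc.2.1
  have hn' : (Fintype.card G : ℤ) = (2 * (h : ℤ) + 1) * k := by rw [hn, hh]; push_cast; ring
  have huh : W.card ≤ h := by
    by_contra hc
    have h3 : (h : ℤ) + 1 ≤ W.card := by omega
    have h4 : 2 * (A.card : ℤ) ≤ Fintype.card G := by exact_mod_cast h2
    have h5 : 2 * ((α : ℤ) + β) < k := by exact_mod_cast hab
    nlinarith [Int.natCast_nonneg α, Int.natCast_nonneg k]
  have hc := hK G Q f A W k h W.card α β hSc rfl hh rfl huh rfl rfl h2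
  have habs : 2 * |(α : ℤ) - β| < k := by
    rcases abs_cases ((α : ℤ) - β) with h3 | h3 <;> omega
  have hg := fin_gain (n := Fintype.card G) (m := A.card) (k := k) (h := h) (u := W.card)
    (s := (α : ℤ) - β) (by rw [hn, hh]) (by rw [hA]; ring) habs
  have hkpos : 0 < k := by omega
  have hmem : k ∈ (Fintype.card G).properDivisors := by
    rw [Nat.mem_properDivisors]
    refine ⟨Dvd.intro _ hn.symm, ?_⟩
    rw [hn, hh]; nlinarith
  have hone : 1 ∈ (Fintype.card G).properDivisors := by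
    rw [Nat.mem_properDivisors]
    refine ⟨one_dvd _, ?_⟩
    rw [hn, hh]; nlinarith
  have h5 := fin_le_sup (m := A.card) hmem
  have h6 := fin_le_sup (m := A.card) hone
  rw [fin_gain_one] at h6
  rw [hg] at h5
  rw [hn'] at hX h6 ⊢
  rcases hN k h W.card α β A.card _ (P4 A) hu1 huh hab hA rfl (by omega) h0 hc with h7 | h7
  · linarith
  · linarith

theorem fin_up (hCo : CON.{u}) (hN : NUM2) (hcyc : IsAddCyclic G)
    (hodd : Odd (Fintype.card G)) (m : ℕ) (h2 : 2 * m ≤ Fintype.card G) :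
    ∃ A : Finset G, A.card = m ∧ 24 * P4 A ≤ Phi (Fintype.card G) m := by
  rcases le_or_gt (4 * (m : ℤ) - Fintype.card G) 0 with hX | hX
  · obtain ⟨h, hh⟩ := hodd
    obtain ⟨A, hA, hP⟩ := hCo G hcyc 1 h m 0 (by omega) (by omega) (by omega) (by omega)
    refine ⟨A, by simpa using hA, le_trans ?_ (le_max_left _ _)⟩
    have e1 : c1 ((1 : ℕ) : ℤ) ((0 : ℕ) : ℤ) (2 * (m : ℤ) - h) = 0 := by
      unfold c1
      split_ifs with h3
      · have : 2 * (m : ℤ) - h = 0 := by omega
        rw [this]; simp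
      · rfl
    have e2 : c2 ((1 : ℕ) : ℤ) ((0 : ℕ) : ℤ) (2 * (m : ℤ) - h - 1) = 0 := by
      unfold c2
      rw [if_neg (by omega)]
    rw [e1, e2] at hP
    simp at hP
    omega
  have hpos : 1 < Fintype.card G := by
    obtain ⟨h, hh⟩ := hodd
    omega
  have hone : 1 ∈ (Fintype.card G).properDivisors := by
    rw [Nat.mem_properDivisors]; exact ⟨one_dvd _, hpos⟩
  obtain ⟨k, hk, hsup⟩ := exists_mem_eq_sup (Fintype.card G).properDivisors ⟨1, hone⟩
    (fun κ => (gain (Fintype.card G) m κ).toNat)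
  have h6 := fin_le_sup (m := m) hone
  rw [fin_gain_one, hsup] at h6
  have hgp : 0 < gain (Fintype.card G) m k := by omega
  have hPhi : Phi (Fintype.card G) m =
      max 0 ((4 * (m : ℤ) - Fintype.card G) ^ 3 - gain (Fintype.card G) m k) := by
    unfold Phi
    rw [hsup, Int.toNat_of_nonneg hgp.le]
  rw [Nat.mem_properDivisors] at hk
  obtain ⟨⟨q, hn⟩, hlt⟩ := hk
  have hodd' := hodd
  rw [hn] at hodd'
  obtain ⟨⟨k', hk'⟩, ⟨h, hh⟩⟩ := Nat.odd_mul.1 hodd'
  subst hh
  have hkpos : 0 < k := by omega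
  have hh1 : 1 ≤ h := by
    rcases Nat.eq_zero_or_pos h with rfl | h0
    · omega
    · exact h0
  have hn' : (Fintype.card G : ℤ) = (2 * (h : ℤ) + 1) * k := by rw [hn]; push_cast; ring
  set u := (2 * m + k) / (2 * k) with hu
  have d1 := Nat.div_add_mod (2 * m + k) (2 * k)
  have d2 := Nat.mod_lt (2 * m + k) (y := 2 * k) (by omega)
  rw [← hu] at d1
  set s : ℤ := (m : ℤ) - u * k with hs
  have d3 : 2 * (k : ℤ) * u + ((2 * m + k) % (2 * k) : ℕ) = 2 * m + k := by exact_mod_cast d1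
  have d4 : (((2 * m + k) % (2 * k) : ℕ) : ℤ) < 2 * k := by exact_mod_cast d2
  have d5 : 2 * s + k = ((2 * m + k) % (2 * k) : ℕ) := by rw [hs]; linarith
  have habs : 2 * |s| < k := by
    have : (0 : ℤ) ≤ ((2 * m + k) % (2 * k) : ℕ) := Int.natCast_nonneg _
    rcases abs_cases s with h3 | h3 <;> omega
  have hm : (m : ℤ) = (u : ℤ) * k + s := by rw [hs]; ring
  have a1 := le_abs_self s
  have a2 := neg_abs_le s
  have h2' : 2 * (m : ℤ) ≤ Fintype.card G := by exact_mod_cast h2
  have huh : u ≤ h := by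
    by_contra hc
    have h3 : (h : ℤ) + 1 ≤ u := by omega
    nlinarith [Int.natCast_nonneg k]
  have hu1 : 1 ≤ u := by
    by_contra hc
    have h3 : u = 0 := Nat.lt_one_iff.1 (not_le.1 hc)
    have h4 : (1 : ℤ) ≤ h := by exact_mod_cast hh1
    rw [h3] at hm
    push_cast at hm
    nlinarith [Int.natCast_nonneg k]
  have hg := fin_gain (n := Fintype.card G) (h := h) hn hm habs
  rw [hn'] at hX
  obtain ⟨n1, n2, n3⟩ := hN k h u s m _ hu1 huh habs hm rfl (by omega)
  rw [← hg, ← hn', ← hPhi] at n1 n2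
  rw [← hg] at n3
  have kz : (0 : ℤ) < k := by exact_mod_cast hkpos
  rcases le_or_gt 0 s with h0 | h0
  · obtain ⟨r, hr⟩ := Int.eq_ofNat_of_zero_le h0
    obtain ⟨A, hA, hP⟩ := hCo G hcyc k h u r hn huh (by omega) (fun e => by
      by_contra hc
      have := n3 e (by omega)
      omega)
    refine ⟨A, by rw [hA]; rw [hr] at hm; exact_mod_cast hm.symm, ?_⟩
    have := n1 h0
    rw [hr] at this
    refine le_of_mul_le_mul_left ?_ kz
    linarith
  · obtain ⟨r, hr⟩ := Int.eq_ofNat_of_zero_le (a := (k : ℤ) + s) (by omega)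
    obtain ⟨v, hv⟩ := Nat.exists_eq_add_of_le' hu1
    obtain ⟨A, hA, hP⟩ := hCo G hcyc k h v r hn (by omega) (by omega) (fun e => by omega)
    have hvz : (u : ℤ) = v + 1 := by exact_mod_cast hv
    refine ⟨A, ?_, ?_⟩
    · have : ((v * k + r : ℕ) : ℤ) = m := by push_cast; rw [← hr, hm, hvz]; ring
      rw [hA]; exact_mod_cast this
    · have := n2 h0
      rw [hr, hvz] at this
      rw [if_neg (by omega)] at hP
      have e1 : 2 * ((v : ℤ) + 1) - h - 2 = 2 * v - h := by ring
      have e2 : 2 * ((v : ℤ) + 1) - h - 3 = 2 * v - h - 1 := by ring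
      rw [e1, e2] at this
      refine le_of_mul_le_mul_left ?_ kz
      linarith

theorem fin_all (hC : COUNT.{u}) (hS : SCALE.{u}) (hK : CORE.{u}) (hN : NUM) (hCo : CON.{u})
    (hN2 : NUM2) (hodd : Odd (Fintype.card G)) (m : ℕ) (hm : m ≤ Fintype.card G) :
    (∀ A : Finset G, A.card = m →
      24 * ((m : ℤ) ^ 4 - (min m (Fintype.card G - m) : ℕ) ^ 4)
        + Fintype.card G * Phi (Fintype.card G) (min m (Fintype.card G - m))
        ≤ 24 * Fintype.card G * P4 A) ∧
    (IsAddCyclic G → ∃ A : Finset G, A.card = m ∧ 24 * Fintype.card G * P4 A ≤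
      24 * ((m : ℤ) ^ 4 - (min m (Fintype.card G - m) : ℕ) ^ 4)
        + Fintype.card G * Phi (Fintype.card G) (min m (Fintype.card G - m))) := by
  have hn : (0 : ℤ) ≤ Fintype.card G := Int.natCast_nonneg _
  rcases le_total m (Fintype.card G - m) with h | h
  · rw [min_eq_left h]
    refine ⟨fun A hA => ?_, fun hc => ?_⟩
    · have := fin_low hC hS hK hN hodd A (by omega)
      rw [hA] at this
      nlinarith
    · obtain ⟨A, hA, hP⟩ := fin_up hCo hN2 hc hodd m (by omega)
      exact ⟨A, hA, by nlinarith⟩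
  · rw [min_eq_right h]
    have ec : ((Fintype.card G - m : ℕ) : ℤ) = Fintype.card G - m := by omega
    refine ⟨fun A hA => ?_, fun hc => ?_⟩
    · have h1 : Aᶜ.card = Fintype.card G - m := by rw [card_compl, hA]
      have h2 := fin_low hC hS hK hN hodd Aᶜ (by omega)
      have h3 := (hC G A).2.2
      rw [h1] at h2
      rw [hA] at h3
      rw [ec]
      nlinarith
    · obtain ⟨A, hA, hP⟩ := fin_up hCo hN2 hc hodd (Fintype.card G - m) (by omega)
      refine ⟨Aᶜ, by rw [card_compl, hA]; omega, ?_⟩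
      have h3 := (hC G A).2.2
      rw [hA, ec] at h3
      rw [ec]
      have e : (Fintype.card G : ℤ) - (Fintype.card G - m) = m := by ring
      rw [e] at h3
      nlinarith

end Pool.Agent.MP_ed46bc_co.K3
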