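import Pool.Agent.MP_ed46bc_co.K3.Spec

/-! Linear pieces of the lower bound for sums of the difference function. -/

namespace Pool.Agent.MP_ed46bc_co.K3

open Finset Pool.Agent.MP_ed46bc_co.SP

universe u v

section One

variable {G : Type u} [AddCommGroup G] [Fintype G] [DecidableEq G]

lemma lbw_L (A B : Finset G) (v : G) : L A (ng B) v = ∑ y, ind A y * ind B (v + y) := by
  unfold L
  refine sum_congr rfl fun y _ => ?_
  unfold ind
  simp only [mem_ng, show -(-v - y) = v + y by abel]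

omit [DecidableEq G] in
lemma lbw_shift (b : G → ℤ) (y : G) : ∑ v, b (v + y) = ∑ v, b v :=
  Equiv.sum_comp (Equiv.addRight y) b

omit [DecidableEq G] in
lemma lbw_conv (a b : G → ℤ) : ∑ v, ∑ y, a y * b (v + y) = (∑ y, a y) * ∑ v, b v := by
  rw [sum_comm, sum_mul]
  exact sum_congr rfl fun y _ => by rw [← mul_sum, lbw_shift]

lemma lbw_even (W : Finset G) (y : G) : L W (ng W) (-y) = L W (ng W) y := by
  rw [lbw_L, lbw_L, ← Equiv.sum_comp (Equiv.addLeft y)]
  exact sum_congr rfl fun x _ => by simp [mul_comm]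

lemma lbw_psi (D E C : Finset G) : -(2 * (D.card : ℤ) * E.card) ≤
    ∑ v ∈ C, ∑ y, (ind D y - ind E y) * (ind D (v + y) - ind E (v + y)) := by
  have h1 : ∑ v ∈ C, ∑ y, (ind D y * ind E (v + y) + ind E y * ind D (v + y)) ≤
      ∑ v, ∑ y, (ind D y * ind E (v + y) + ind E y * ind D (v + y)) :=
    sum_le_sum_of_subset_of_nonneg (subset_univ C) fun v _ _ => sum_nonneg fun y _ =>
      add_nonneg (mul_nonneg (ind_nonneg _ _) (ind_nonneg _ _))
        (mul_nonneg (ind_nonneg _ _) (ind_nonneg _ _))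
  have h2 : ∑ v, ∑ y, (ind D y * ind E (v + y) + ind E y * ind D (v + y)) =
      2 * (D.card : ℤ) * E.card := by
    simp only [sum_add_distrib, lbw_conv, sum_ind]
    ring
  rw [← h2]
  refine (neg_le_neg h1).trans ?_
  rw [← sum_neg_distrib]
  refine sum_le_sum fun v _ => ?_
  rw [← sum_neg_distrib]
  refine sum_le_sum fun y _ => ?_
  nlinarith [mul_nonneg (ind_nonneg D y) (ind_nonneg D (v + y)),
    mul_nonneg (ind_nonneg E y) (ind_nonneg E (v + y))]

omit [DecidableEq G] in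
lemma lbw_card_even {h : ℕ} (hc : Fintype.card G = 2 * h + 1) {Z : Finset G}
    (hs : ∀ y ∈ Z, -y ∈ Z) (h0 : (0 : G) ∉ Z) : Even Z.card := by
  have h1 : ∑ _y ∈ Z, (1 : ZMod 2) = 0 := by
    refine sum_involution (fun y _ => -y) (fun _ _ => rfl) (fun y hy _ e => h0 ?_) hs
      fun y _ => neg_neg y
    have h2 : (2 * h + 1) • y = 0 := hc ▸ card_nsmul_eq_zero
    have h3 : y + y = 0 := by nth_rewrite 1 [← e]; exact neg_add_cancel y
    rw [add_nsmul, mul_nsmul, two_nsmul, h3, nsmul_zero, zero_add, one_nsmul] at h2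
    exact h2 ▸ hy
  rw [sum_const, nsmul_eq_mul, mul_one] at h1
  exact ZMod.natCast_eq_zero_iff_even.1 h1

lemma lbw_T (Y X W : Finset G) : T Y X (ng W) = ∑ x ∈ X, ∑ y ∈ Y, ind W (y + x) := by
  rw [T_eq_sum_L, sum_comm]
  exact sum_congr rfl fun y _ => by rw [lbw_L, sum_ind_mul]

end One

lemma lbw_lam (k u α β m : ℕ) (hu : 1 ≤ u) (hk : 2 * (α + β) < k) (hm : m ≤ u) :
    0 ≤ lam k u α β m ∧ lam k u α β m ≤ (k : ℤ) * u - 2 * β := by
  have hk' : 2 * ((α : ℤ) + β) < k := by exact_mod_cast hk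
  have hu' : (1 : ℤ) ≤ u := by exact_mod_cast hu
  have ha : (0 : ℤ) ≤ α := by positivity
  have hb : (0 : ℤ) ≤ β := by positivity
  unfold lam
  split_ifs with h1 h2
  · exact ⟨ha, by nlinarith⟩
  · subst h2
    exact ⟨by nlinarith, by linarith⟩
  · have h3 : (1 : ℤ) ≤ m := by omega
    have h4 : (m : ℤ) + 1 ≤ u := by omega
    exact ⟨by nlinarith, by nlinarith⟩

lemma lbw_om (k u α β m N : ℕ) (hk : 2 * (α + β) < k) (hN : N ≤ u) :
    2 * lam k u α β m * ((N : ℤ) - m) ≤ om k α β N - om k α β m := by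
  have hk' : 2 * ((α : ℤ) + β) < k := by exact_mod_cast hk
  have ha : (0 : ℤ) ≤ α := by positivity
  have hb : (0 : ℤ) ≤ β := by positivity
  have sq : 0 ≤ (k : ℤ) * (((N : ℤ) - m) * ((N : ℤ) - m - 1)) := by
    refine mul_nonneg (by positivity) ?_
    rcases le_or_gt ((N : ℤ) - m) 0 with h | h
    · exact mul_nonneg_of_nonpos_of_nonpos h (by linarith)
    · exact mul_nonneg h.le (by linarith)
  unfold lam om
  by_cases h1 : m = 0
  · subst h1
    by_cases h2 : N = 0
    · subst h2; simp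
    · have h3 : (1 : ℤ) ≤ N := by omega
      simp only [if_true, if_neg h2]
      have : 0 ≤ ((N : ℤ) - 1) * (k * N - 2 * β) := mul_nonneg (by linarith) (by nlinarith)
      push_cast
      nlinarith
  · have h3 : (1 : ℤ) ≤ m := by omega
    have h5 : (k : ℤ) ≤ k * m := by nlinarith
    have h6 : (k : ℤ) * m ≤ k * m * m := by nlinarith
    simp only [if_neg h1]
    by_cases h2 : N = 0
    · subst h2
      have h7 : 2 * ((α : ℤ) + β) * m ≤ k * m := by nlinarith
      simp only [if_true]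
      push_cast
      split_ifs <;> nlinarith
    · simp only [if_neg h2]
      split_ifs with h4
      · have h7 : (0 : ℤ) ≤ m - N := by omega
        have h8 : 0 ≤ ((m : ℤ) - N) * (k * (m - N + 1) - 2 * (α + β)) :=
          mul_nonneg h7 (by nlinarith)
        nlinarith
      · nlinarith

section Two

variable {G : Type u} [AddCommGroup G] [Fintype G] [DecidableEq G]
variable {Q : Type v} [AddCommGroup Q] [Fintype Q] [DecidableEq Q]

/-- The first order term. -/
def lbwG (f : G →+ Q) (D E : Finset G) (W : Finset Q) (y : Q) : ℤ :=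
  ∑ z ∈ D, ind W (y + f z) - ∑ z ∈ E, ind W (y + f z)

omit [Fintype Q] in
lemma lbw_G (f : G →+ Q) (D E : Finset G) (W : Finset Q) (y : Q) :
    lbwG f D E W y = ∑ z, (ind D z - ind E z) * ind W (y + f z) := by
  simp only [lbwG, sub_mul, sum_sub_distrib, sum_ind_mul]

lemma lbw_dec {f : G →+ Q} (hf : Function.Surjective f) (A : Finset G) (W : Finset Q) (v : G) :
    L A (ng A) v = (Nat.card f.ker : ℤ) * L W (ng W) (f v) +
      lbwG f (A \ pre f W) (pre f W \ A) W (f v) + lbwG f (A \ pre f W) (pre f W \ A) W (-f v) +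
      ∑ y, (ind (A \ pre f W) y - ind (pre f W \ A) y) *
        (ind (A \ pre f W) (v + y) - ind (pre f W \ A) (v + y)) := by
  have e : ∀ x, ind A x = ind W (f x) + (ind (A \ pre f W) x - ind (pre f W \ A) x) := fun x => by
    by_cases h1 : x ∈ A <;> by_cases h2 : f x ∈ W <;> simp [ind, h1, h2]
  rw [lbw_L, lbw_L, lbw_G, lbw_G, ← sum_comp_hom hf,
    ← Equiv.sum_comp (Equiv.addLeft v) fun z => _ * ind W (-f v + f z)]
  simp only [← sum_add_distrib]
  refine sum_congr rfl fun y _ => ?_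
  rw [e y, e (v + y)]
  simp only [Equiv.coe_addLeft, map_add, neg_add_cancel_left]
  ring

end Two

theorem lbw : LBW.{u} := by
  intro G _ _ _ Q _ _ _ f A W k h u α β hf hk hQ hW hu huh hα hβ hab hP m hm C
  set D := A \ pre f W with hD
  set E := pre f W \ A with hE
  have mD : ∀ z ∈ D, f z ∉ W := fun z hz => by simpa using (mem_sdiff.1 hz).2
  have mE : ∀ z ∈ E, f z ∈ W := fun z hz => by simpa using (mem_sdiff.1 hz).1
  let g : Q → ℤ := fun y => k * L W (ng W) y + lbwG f D E W y + lbwG f D E W (-y)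
  have hab' : 2 * ((α : ℤ) + β) < k := by exact_mod_cast hab
  obtain ⟨l0, l1⟩ := lbw_lam k u α β m hu hab hm
  set lm := lam k u α β m with hlm
  have ge : ∀ y, g (-y) = g y := fun y => by
    simp only [g, lbw_even, neg_neg]; ring
  have g0 : g 0 = k * u - 2 * β := by
    have h1 : L W (ng W) 0 = u := by
      rw [lbw_L, sum_ind_mul, ← hW, sum_congr rfl fun y hy => ind_of_mem (by simpa using hy)]
      simp
    have h2 : lbwG f D E W 0 = -β := by
      unfold lbwG
      rw [sum_congr rfl fun z hz => ind_of_not_mem (by simpa using mD z hz),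
        sum_congr rfl fun z hz => ind_of_mem (A := W) (x := 0 + f z) (by simpa using mE z hz)]
      simp [hβ]
    simp only [g, neg_zero, h1, h2]; ring
  have gs : ∑ y, g y = k * u ^ 2 + 2 * (α - β) * u := by
    have h1 : ∑ y, L W (ng W) y = u * u := by
      simp only [lbw_L, lbw_conv, sum_ind, hW]
    have h2 : ∑ y, lbwG f D E W y = (α - β) * u := by
      simp only [lbwG, sum_sub_distrib]
      rw [sum_comm, sum_comm (s := univ) (t := E)]
      simp only [lbw_shift, sum_ind, hW, sum_const, hα, hβ, nsmul_eq_mul]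
      ring
    have h3 : ∑ y, lbwG f D E W (-y) = (α - β) * u :=
      (Equiv.sum_comp (Equiv.neg Q) _).trans h2
    simp only [g, sum_add_distrib, ← mul_sum, h1, h2, h3]; ring
  let Z : Finset Q := univ.filter fun y => g y < lm
  have Zs : ∀ y, -y ∈ Z ↔ y ∈ Z := fun y => by simp only [Z, mem_filter, mem_univ, true_and, ge]
  have Z0 : (0 : Q) ∉ Z := by simp only [Z, mem_filter, mem_univ, true_and, g0]; linarith
  obtain ⟨t, ht⟩ := lbw_card_even hQ (fun y hy => (Zs y).2 hy) Z0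
  have hc := card_add_card_compl Z
  obtain ⟨e, he⟩ : ∃ e, Zᶜ.card = 2 * e + 1 := ⟨h - t, by omega⟩
  obtain ⟨p1, p2, p3⟩ := hP Zᶜ e he
  rw [hW] at p1 p2 p3
  obtain ⟨N, hN, hNu⟩ : ∃ N : ℕ, max ((u : ℤ) - e) 0 = N ∧ N ≤ u :=
    ⟨u - e, by omega, by omega⟩
  rw [hN] at p1 p2
  have q1 : ∑ z ∈ D, ∑ y ∈ Zᶜ, ind W (y + f z) ≤
      α * ((u : ℤ) * (u + 1) - N ^ 2 - T Zᶜ W (ng W)) := by
    rw [← hα, ← nsmul_eq_mul]
    refine sum_le_card_nsmul _ _ _ fun z hz => ?_
    have := p2 _ (mD z hz)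
    rw [lbw_T, sum_insert (mD z hz), ← lbw_T] at this
    linarith
  have q2 : β * (T Zᶜ W (ng W) - ((u : ℤ) * (u - 1) - max ((u : ℤ) - e - 1) 0 ^ 2)) ≤
      ∑ z ∈ E, ∑ y ∈ Zᶜ, ind W (y + f z) := by
    rw [← hβ, ← nsmul_eq_mul]
    refine card_nsmul_le_sum _ _ _ fun z hz => ?_
    have := p3 _ (mE z hz)
    have h2 := lbw_T Zᶜ W W
    rw [← add_sum_erase _ _ (mE z hz), ← lbw_T] at h2
    linarith
  have gY : ∑ y ∈ Zᶜ, g y = k * T Zᶜ W (ng W) + 2 * (∑ z ∈ D, ∑ y ∈ Zᶜ, ind W (y + f z) -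
      ∑ z ∈ E, ∑ y ∈ Zᶜ, ind W (y + f z)) := by
    have h2 : ∑ y ∈ Zᶜ, lbwG f D E W y = ∑ z ∈ D, ∑ y ∈ Zᶜ, ind W (y + f z) -
        ∑ z ∈ E, ∑ y ∈ Zᶜ, ind W (y + f z) := by
      simp only [lbwG, sum_sub_distrib]
      rw [sum_comm, sum_comm (s := Zᶜ) (t := E)]
    have h3 : ∑ y ∈ Zᶜ, lbwG f D E W (-y) = ∑ y ∈ Zᶜ, lbwG f D E W y :=
      sum_equiv (Equiv.neg Q) (fun y => by simp only [mem_compl, Equiv.neg_apply, Zs])
        fun _ _ => rfl
    simp only [g, sum_add_distrib, ← mul_sum, h3, h2, T_eq_sum_L]; ring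
  have gZ : om k α β N ≤ ∑ y ∈ Z, g y := by
    have h1 := sum_add_sum_compl Z g
    have h2 : (k - 2 * ((α : ℤ) + β)) * T Zᶜ W (ng W) ≤
        (k - 2 * ((α : ℤ) + β)) * ((u : ℤ) ^ 2 - N * (N - 1)) :=
      mul_le_mul_of_nonneg_left p1 (by linarith)
    unfold om
    split_ifs with h0
    · rw [show max ((u : ℤ) - e - 1) 0 = 0 by omega] at q2
      subst h0
      push_cast at h2 q1 ⊢
      linarith only [h1, h2, q1, q2, gY, gs]
    · rw [show max ((u : ℤ) - e - 1) 0 = N - 1 by omega] at q2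
      linarith only [h1, h2, q1, q2, gY, gs]
  have s1 : (k : ℤ) * (∑ y ∈ Z, g y - Z.card * lm) ≤ ∑ v ∈ C, g (f v) - C.card * lm := by
    have h1 : ∑ v, ind Z (f v) * (g (f v) - lm) = k * ∑ y, ind Z y * (g y - lm) :=
      hk ▸ sum_comp_hom hf fun y => ind Z y * (g y - lm)
    rw [sum_ind_mul, sum_sub_distrib, sum_const, nsmul_eq_mul] at h1
    rw [← h1, ← nsmul_eq_mul, ← sum_const, ← sum_sub_distrib, ← sum_ind_mul C]
    refine sum_le_sum fun v _ => ?_
    by_cases h2 : f v ∈ Z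
    · have : g (f v) < lm := (mem_filter.1 h2).2
      rw [ind_of_mem h2]
      nlinarith [ind_le_one C v]
    · have : ¬ g (f v) < lm := fun h => h2 (mem_filter.2 ⟨mem_univ _, h⟩)
      rw [ind_of_not_mem h2, zero_mul]
      exact mul_nonneg (ind_nonneg C v) (by linarith)
  have s2 := lbw_psi D E C
  have s3 : ∑ v ∈ C, L A (ng A) v = ∑ v ∈ C, g (f v) +
      ∑ v ∈ C, ∑ y, (ind D y - ind E y) * (ind D (v + y) - ind E (v + y)) := by
    rw [← sum_add_distrib]
    exact sum_congr rfl fun v _ => by rw [lbw_dec hf A W v, hk]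
  have s4 := lbw_om k u α β m N hab hNu
  have s5 : (Z.card : ℤ) = 2 * (h - e) := by omega
  have s6 : lm * ((u : ℤ) - e) ≤ lm * N := mul_le_mul_of_nonneg_left (by omega) l0
  have s7 : (k : ℤ) * (om k α β m - 2 * ((h : ℤ) - u + m) * lm) ≤
      k * (∑ y ∈ Z, g y - Z.card * lm) :=
    mul_le_mul_of_nonneg_left (by rw [s5]; rw [← hlm] at s4; linarith) (by positivity)
  rw [hα, hβ] at s2
  rw [s3]
  linarith

end Pool.Agent.MP_ed46bc_co.K3
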