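import Pool.Agent.MP_ed46bc_co.K3.Spec

/-! Row NUM: the bound at one scale against the closed formula. -/

namespace Pool.Agent.MP_ed46bc_co.K3

open Finset Pool.Agent.MP_ed46bc_co.SP

theorem num_sum (k s c : ℤ) (n : ℕ) : 6 * ∑ N ∈ Icc 1 n, ((c - (N : ℤ)) * k + s) ^ 2 =
    6 * n * (c * k + s) ^ 2 - 6 * n * (n + 1) * k * (c * k + s)
      + n * (n + 1) * (2 * n + 1) * k ^ 2 := by
  induction n with
  | zero => simp
  | succ n ih =>
    rw [Finset.sum_Icc_succ_top (by omega), mul_add, ih]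
    push_cast
    ring

theorem num_low {k s : ℤ} {n u : ℕ} (hu : n + 1 ≤ u) (hk : 0 ≤ k) (hs : 0 ≤ k + s) :
    n * (n + 1) * (2 * n + 1) * k ^ 2 + 6 * n * (n + 1) * k * s + 6 * n * s ^ 2
      + 6 * max s 0 ^ 2 ≤ 6 * ∑ N ∈ Icc 1 u, max (((n : ℤ) + 1 - (N : ℤ)) * k + s) 0 ^ 2 := by
  have h1 : ∑ N ∈ Icc 1 (n + 1), max (((n : ℤ) + 1 - (N : ℤ)) * k + s) 0 ^ 2 ≤
      ∑ N ∈ Icc 1 u, max (((n : ℤ) + 1 - (N : ℤ)) * k + s) 0 ^ 2 :=
    sum_le_sum_of_subset_of_nonneg (Icc_subset_Icc_right hu) fun _ _ _ => sq_nonneg _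
  have h2 : ∑ N ∈ Icc 1 n, max (((n : ℤ) + 1 - (N : ℤ)) * k + s) 0 ^ 2 =
      ∑ N ∈ Icc 1 n, (((n : ℤ) + 1 - (N : ℤ)) * k + s) ^ 2 := by
    refine sum_congr rfl fun N hN => ?_
    have : (N : ℤ) ≤ n := by exact_mod_cast (mem_Icc.1 hN).2
    rw [max_eq_left (by nlinarith [mul_nonneg (sub_nonneg.2 this) hk])]
  rw [Finset.sum_Icc_succ_top (by omega), h2] at h1
  have h3 := num_sum k s (n + 1) n
  have h4 : ((n : ℤ) + 1 - ((n + 1 : ℕ) : ℤ)) * k + s = s := by push_cast; ring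
  rw [h4] at h1
  nlinarith

theorem num : NUM := by
  intro k h u α β a X p hu huh hk ha hX h1 hp hc
  have hk' : 2 * ((α : ℤ) + β) < k := by exact_mod_cast hk
  have hα : (0 : ℤ) ≤ α := Int.natCast_nonneg _
  have hβ : (0 : ℤ) ≤ β := Int.natCast_nonneg _
  have hu' : (1 : ℤ) ≤ u := by exact_mod_cast hu
  have huh' : (u : ℤ) ≤ h := by exact_mod_cast huh
  have hM : h ≤ 2 * u := by
    by_contra hn
    have : 2 * (u : ℤ) + 1 ≤ h := by exact_mod_cast not_le.1 hn
    nlinarith [mul_nonneg (sub_nonneg.2 this) (by linarith : (0 : ℤ) ≤ k)]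
  obtain ⟨m, hm⟩ := Nat.exists_eq_add_of_le hM
  have hm' : 2 * (u : ℤ) - h = m := by
    have : ((2 * u : ℕ) : ℤ) = ((h + m : ℕ) : ℤ) := congrArg _ hm
    push_cast at this
    linarith
  obtain ⟨s, hs⟩ : ∃ s : ℤ, s = (α : ℤ) - β := ⟨_, rfl⟩
  have hb : ∀ N : ℕ, bb k h u α β N = ((m : ℤ) - N) * k + s := fun N => by
    rw [bb, hm', hs]; ring
  have hX' : X = (2 * (m : ℤ) - 1) * k + 4 * s := by
    rw [hX, ha, ← hm', hs]; ring
  have ha' : a = (u : ℤ) * k + s := by rw [ha, hs]; ring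
  unfold core at hc
  simp only [hb, Nat.cast_zero, Nat.cast_one, sub_zero] at hc
  rw [← hs]
  clear hb hX ha
  generalize (k : ℤ) = K at *
  generalize (α : ℤ) = A at *
  generalize (β : ℤ) = B at *
  have hK : 0 < K := by linarith
  rcases m with _ | n
  · right
    simp only [Nat.cast_zero, zero_mul, zero_add, zero_sub] at hc hX'
    have e1 : max (-1 * K + s) 0 = 0 := max_eq_right (by linarith)
    have e2 : max (-(u : ℤ) * K + s) 0 = 0 :=
      max_eq_right (by nlinarith [mul_nonneg (sub_nonneg.2 hu') hK.le])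
    have e3 : max (s - 2 * B) 0 = s - 2 * B := max_eq_left (by linarith)
    have e4 : 0 ≤ K * ∑ N ∈ Icc 1 u, max (-(N : ℤ) * K + s) 0 ^ 2 :=
      mul_nonneg hK.le (sum_nonneg fun _ _ => sq_nonneg _)
    rw [e1, e2, e3] at hc
    have e5 : X ^ 3 ≤ (2 * (s - 2 * B)) ^ 3 := pow_le_pow_left₀ (by linarith) (by linarith) 3
    have e6 : (s - 2 * B) * ((s - 2 * B) * (s - 2 * B)) ≤ A * (s * (s - 2 * B)) :=
      mul_le_mul (by linarith) (mul_le_mul_of_nonneg_right (by linarith) (by linarith))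
        (mul_self_nonneg _) hα
    nlinarith
  left
  push_cast at hc hX' hm'
  have hn : (0 : ℤ) ≤ n := Int.natCast_nonneg _
  have hnK : 0 ≤ (n : ℤ) * K := mul_nonneg hn hK.le
  have l1 := mul_le_mul_of_nonneg_left
    (num_low (k := K) (s := s) (n := n) (u := u) (by omega) hK.le (by linarith)) hK.le
  generalize ∑ N ∈ Icc 1 u, max (((n : ℤ) + 1 - (N : ℤ)) * K + s) 0 ^ 2 = S at hc l1
  have l2 : A * ((((n : ℤ) + 1) * K + s) * (((n : ℤ) + 1) * K + s - 2 * B)) ≤
      A * ((((n : ℤ) + 1) * K + s) * max (((n : ℤ) + 1) * K + s - 2 * B) 0) :=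
    mul_le_mul_of_nonneg_left (mul_le_mul_of_nonneg_left (le_max_left _ _) (by linarith)) hα
  generalize A * ((((n : ℤ) + 1) * K + s) * max (((n : ℤ) + 1) * K + s - 2 * B) 0) = T at hc l2
  have e0 : ((n : ℤ) + 1 - 1) * K + s = n * K + s := by ring
  have e2 : (u : ℤ) + 1 ≤ h → ((n : ℤ) + 1 - u) * K + s ≤ 0 ∧ ¬ (h : ℤ) * K < a := fun e =>
    ⟨by nlinarith [mul_nonneg (show 0 ≤ (u : ℤ) - n - 2 by linarith) hK.le],
      by nlinarith [mul_nonneg (sub_nonneg.2 e) hK.le]⟩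
  rw [e0] at hc
  unfold gainZ
  rcases le_or_gt 0 s with h0 | h0
  · obtain rfl : A = B + s := by linarith
    rw [max_eq_left h0] at l1
    rw [max_eq_left (show 0 ≤ (n : ℤ) * K + s by linarith)] at hc
    rw [abs_of_nonneg h0]
    have l3 : 0 ≤ B * ((K - 2 * (B + s)) * (((n : ℤ) + 1) * K + s) + K * (n * K) +
        s * (K - 2 * s)) :=
      mul_nonneg hβ (add_nonneg (add_nonneg (mul_nonneg (by linarith) (by linarith))
        (mul_nonneg hK.le hnK)) (mul_nonneg h0 (by linarith)))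
    have l4 : 0 ≤ B * s ^ 2 := mul_nonneg hβ (sq_nonneg _)
    rcases huh'.eq_or_lt with e | e
    · have e3 : ((n : ℤ) + 1 - u) * K + s = s := by
        rw [show (n : ℤ) + 1 - u = 0 by linarith]; ring
      have e4 : (if (h : ℤ) * K < a then 24 * s ^ 3 else 0) = 24 * s ^ 3 := by
        split_ifs with e5
        · rfl
        · obtain rfl : s = 0 := by
            rw [ha', e] at e5
            linarith
          norm_num
      rw [e3, max_eq_left h0] at hc
      rw [e4, hX']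
      linarith
    · rw [max_eq_right (e2 e).1] at hc
      rw [if_neg (e2 e).2, hX']
      linarith
  · obtain rfl : B = A - s := by linarith
    have e4 : ¬ (h : ℤ) * K < a := by nlinarith [mul_nonneg (sub_nonneg.2 huh') hK.le]
    rw [abs_of_neg h0, if_neg e4, hX']
    rcases Nat.eq_zero_or_pos n with rfl | hn0
    · have : s ^ 3 < 0 := (Odd.pow_neg_iff (by decide)).2 h0
      push_cast
      linarith
    have hn1 : (1 : ℤ) ≤ n := by exact_mod_cast hn0
    have l5 : K ≤ n * K := le_mul_of_one_le_left hK.le hn1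
    have e3 : ((n : ℤ) + 1 - u) * K + s ≤ 0 := by
      nlinarith [mul_nonneg (show 0 ≤ (u : ℤ) - n - 1 by linarith) hK.le]
    rw [max_eq_right h0.le] at l1
    rw [max_eq_left (show 0 ≤ (n : ℤ) * K + s by linarith), max_eq_right e3] at hc
    have l3 : 0 ≤ A * ((K - 2 * (A - s)) * (((n : ℤ) + 1) * K + s) + K * (n * K + s)) :=
      mul_nonneg hα (add_nonneg (mul_nonneg (by linarith) (by linarith))
        (mul_nonneg hK.le (by linarith)))
    linarith

end Pool.Agent.MP_ed46bc_co.K3
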