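import Pool.Agent.MP_ed46bc_co.K3.Spec

/-! Row NUM2: the value of the construction against the closed formula. -/

namespace Pool.Agent.MP_ed46bc_co.K3

open Finset Pool.Agent.MP_ed46bc_co.SP

theorem num2_c2 (k r M : ℤ) (h : -2 ≤ M) :
    c2 k r M = k ^ 3 * (3 * r * (M + 2) * (M + 1) + k * (M + 2) * (M + 1) * M) := by
  unfold c2
  split_ifs with h1
  · rfl
  · rcases (by omega : M = -2 ∨ M = -1) with rfl | rfl <;> ring

theorem num2_le (k x y : ℤ) (hk : 0 ≤ k) (h : x = k * y) : x ≤ k * max 0 y :=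
  h ▸ mul_le_mul_of_nonneg_left (le_max_right _ _) hk

theorem num2_neg (k s Y : ℤ) (hY : 1 ≤ Y) (h1 : 2 * s < k) (h2 : k + 1 < 4 * s) :
    (Y * k + 4 * s) * (k ^ 2 - 12 * s * (k - s)) - 4 * s * (k - s) * (k - 2 * s) + 24 * s ^ 3 < 0 := by
  have hs : 0 < s := by omega
  have hk : 0 < k := by omega
  have h3 : k ^ 2 - 12 * s * (k - s) ≤ 0 := by nlinarith
  have h4 : (Y - 1) * k * (k ^ 2 - 12 * s * (k - s)) ≤ 0 :=
    mul_nonpos_of_nonneg_of_nonpos (mul_nonneg (by omega) hk.le) h3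
  have h5 : 0 < s ^ 2 * (k - 2 * s) := mul_pos (by positivity) (by omega)
  have h6 : 0 < s * k * (k - 2 * s) := mul_pos (by positivity) (by omega)
  have h7 : 0 < k ^ 2 * (8 * s - k) := mul_pos (by positivity) (by omega)
  nlinarith

theorem num2 : NUM2 := by
  intro k h u s a X hu huh hs ha hX h1
  have hk : (0 : ℤ) < k := lt_of_le_of_lt (by positivity) hs
  obtain ⟨M, hM⟩ : ∃ M : ℤ, M = 2 * (u : ℤ) - h := ⟨_, rfl⟩
  have hX' : X = (2 * M - 1) * k + 4 * s := by rw [hX, ha, hM]; ring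
  have hc : ((h : ℤ) * k < a) ↔ (u = h ∧ 0 < s) := by
    rw [ha]
    refine ⟨fun e => ?_, fun e => by rw [e.1]; linarith [e.2]⟩
    by_cases e1 : u = h
    · rw [e1] at e
      exact ⟨e1, by linarith⟩
    · have e2 : (u : ℤ) + 1 ≤ h := by omega
      have e3 := mul_le_mul_of_nonneg_right e2 hk.le
      have e4 := le_abs_self s
      have e5 := abs_nonneg s
      nlinarith
  refine ⟨fun h0 => ?_, fun h0 => ?_, fun e h2 => ?_⟩
  · rw [abs_of_nonneg h0] at hs
    have hM0 : 0 ≤ M := by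
      by_contra hn
      have e2 : 2 * M - 1 ≤ -3 := by omega
      have e3 := mul_le_mul_of_nonneg_right e2 hk.le
      linarith
    rw [← hM, num2_c2 _ _ _ (by omega), c1, if_pos hM0]
    refine num2_le _ _ _ hk.le ?_
    unfold gainZ
    rw [abs_of_nonneg h0, hX']
    by_cases e : u = h
    · rw [if_pos e]
      rcases h0.eq_or_lt with e1 | e1
      · rw [← e1]
        simp only [ne_eq, OfNat.ofNat_ne_zero, not_false_eq_true, zero_pow, mul_zero, ite_self]
        ring
      · rw [if_pos (hc.2 ⟨e, e1⟩)]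
        ring
    · rw [if_neg e, if_neg fun e1 => e (hc.1 e1).1]
      ring
  · have hM1 : 1 ≤ M := by
      by_contra hn
      have e2 : 2 * M - 1 ≤ -1 := by omega
      have e3 := mul_le_mul_of_nonneg_right e2 hk.le
      linarith
    rw [← hM, num2_c2 _ _ _ (by omega), c1]
    rcases hM1.eq_or_lt with e | e
    · rw [← e, if_neg (by norm_num)]
      refine le_trans (le_of_eq (by ring)) (mul_nonneg hk.le (le_max_left _ _))
    · rw [if_pos (by omega)]
      refine num2_le _ _ _ hk.le ?_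
      unfold gainZ
      rw [abs_of_neg h0, hX', if_neg fun e1 => absurd (hc.1 e1).2 h0.le.not_gt]
      ring
  · have h0 : 0 < s := by omega
    rw [abs_of_pos h0] at hs
    unfold gainZ
    rw [abs_of_pos h0, hX', if_pos (hc.2 ⟨e, h0⟩)]
    exact num2_neg k s (2 * M - 1) (by omega) hs h2

end Pool.Agent.MP_ed46bc_co.K3
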