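import Pool.Agent.MP_ed46bc_co.K3.Spec

/-! Row PRIM: Pollard bounds for the base of the largest scale. -/

namespace Pool.Agent.MP_ed46bc_co.K3

open Finset Pool.Agent.MP_ed46bc_co.SP
open scoped symmDiff

universe u

variable {G : Type u} [AddCommGroup G] [Fintype G] [DecidableEq G]
variable {Q : Type u} [AddCommGroup Q] [Fintype Q] [DecidableEq Q]

theorem prim_gam (hS : SS.{u}) {f : G →+ Q} {A : Finset G} {W : Finset Q} (h : Sc f A W)
    (hW : 2 * W.card < Fintype.card Q) (X Y : Finset Q) (hX : (W ∆ X).card ≤ 1)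
    (hY : Y.card ≤ X.card + W.card) : Gam Y X (ng W) ≤ 1 := by
  by_contra hn
  obtain ⟨K, V0, V1, V2, ⟨p0, p1, p2, t, ht, hc⟩, h1, h2⟩ := hS Q Y X (ng W) (by omega)
  have h3 : 2 ≤ Psi Y X (ng W) K V0 V1 V2 := by
    by_contra h3
    have : Psi Y X (ng W) K V0 V1 V2 = 1 := by omega
    rw [this] at h2
    omega
  unfold Psi sig at h3
  have e1 : (ng W ∆ V2).card = (W ∆ ng V2).card := by
    rw [← card_ng (ng W ∆ V2), ng_symmDiff, ng_ng]
  have a1 := card_symmDiff_tri W X V1
  have a2 := card_symmDiff_tri V1 W (ng V2)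
  rw [symmDiff_comm V1 W] at a2
  have e2 : V1 = ng V2 := per_eq p1 (per_ng p2) (by omega)
  have e3 : V2.card = V1.card := by rw [e2, card_ng]
  rw [← e2] at e1
  obtain ⟨hf, -, -, h4, h5⟩ := h
  rcases V1.eq_empty_or_nonempty with rfl | hne
  · have a3 := card_symmDiff_tri V0 Y ∅
    have b1 : ∀ Z : Finset Q, (Z ∆ ∅).card = Z.card := fun Z => by
      rw [← bot_eq_empty, symmDiff_bot]
    rw [b1, b1, symmDiff_comm V0 Y] at a3
    rw [b1] at e1
    rw [b1] at h3
    rw [e3, card_empty] at hc
    obtain ⟨s, rfl⟩ := ht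
    have : Nat.card K ≤ (2 * s + 1) * Nat.card K := Nat.le_mul_of_pos_left _ (by omega)
    omega
  by_cases hu : V1 = univ
  · have b1 : (W ∆ V1).card + W.card = Fintype.card Q := by
      rw [hu, ← top_eq_univ, symmDiff_top, add_comm]
      exact card_add_card_compl W
    have b2 : Nat.card K ≤ Fintype.card Q :=
      Nat.le_of_dvd Fintype.card_pos (card_sub_dvd K)
    omega
  have hk := card_sub_pos f.ker
  have b1 : K.comap f ≤ f.ker := by
    refine h5 _ (pre f V1) (per_pre_comap f p1) ?_ (fun e => hu (pre_inj hf ?_)) ?_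
    · rw [← card_pos, card_pre hf]
      exact Nat.mul_pos hk hne.card_pos
    · rw [e, pre_univ]
    · have c1 := card_symmDiff_tri A (pre f W) (pre f V1)
      rw [← pre_symmDiff, card_pre hf] at c1
      rw [card_comap hf]
      have c2 : Nat.card f.ker * (2 * (W ∆ V1).card + 1) ≤ Nat.card f.ker * Nat.card K :=
        Nat.mul_le_mul_left _ (by omega)
      nlinarith
  have b2 := AddSubgroup.card_le_of_le b1
  rw [card_comap hf] at b2
  have b3 : Nat.card f.ker * 2 ≤ Nat.card f.ker * Nat.card K := Nat.mul_le_mul_left _ (by omega)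
  omega

theorem prim_le (X Y W : Finset Q) : T Y X (ng W) ≤ (X.card : ℤ) * W.card := by
  rw [T_swap12, T_swap23, ← card_ng W]
  exact T_le _ _ _

theorem prim (hS : SS.{u}) : PRIM.{u} := by
  intro G _ _ _ Q _ _ _ f A W h hW Y e hY
  refine ⟨?_, fun x hx => ?_, fun x hx => ?_⟩
  · by_cases hc : e < W.card
    · have h1 := prim_gam hS h hW W Y (by simp) (by omega)
      rw [Gam, card_ng, hY] at h1
      rw [max_eq_left (by omega)]
      push_cast at h1
      nlinarith
    · have := prim_le W Y W
      rw [max_eq_right (by omega)]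
      nlinarith
  · have hc' := card_insert_of_notMem hx
    by_cases hc : e ≤ W.card
    · have h1 := prim_gam hS h hW (insert x W) Y (by
        rw [card_le_one_iff_subset_singleton]
        exact ⟨x, fun y hy => by
          simp only [mem_symmDiff, mem_insert, mem_singleton] at hy ⊢
          tauto⟩) (by omega)
      rw [Gam, card_ng, hY, hc'] at h1
      rw [max_eq_left (by omega)]
      push_cast at h1
      have h2 : 4 * T Y (insert x W) (ng W) ≤
          4 * ((W.card : ℤ) * (W.card + 1) - ((W.card : ℤ) - e) ^ 2) + 1 := by nlinarith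
      omega
    · have := prim_le (insert x W) Y W
      rw [hc'] at this
      rw [max_eq_right (by omega)]
      push_cast at this
      nlinarith
  · have hc' := card_erase_add_one hx
    have hc'' : ((W.erase x).card : ℤ) = W.card - 1 := by omega
    by_cases hc : e + 1 ≤ W.card
    · have h1 := prim_gam hS h hW (W.erase x) Y (by
        rw [card_le_one_iff_subset_singleton]
        exact ⟨x, fun y hy => by
          simp only [mem_symmDiff, mem_erase, mem_singleton] at hy ⊢
          tauto⟩) (by omega)
      rw [Gam, card_ng, hY, hc''] at h1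
      rw [max_eq_left (by omega)]
      push_cast at h1
      have h2 : 4 * T Y (W.erase x) (ng W) ≤
          4 * ((W.card : ℤ) * (W.card - 1) - ((W.card : ℤ) - e - 1) ^ 2) + 1 := by nlinarith
      omega
    · have := prim_le (W.erase x) Y W
      rw [hc''] at this
      rw [max_eq_right (by omega)]
      nlinarith

end Pool.Agent.MP_ed46bc_co.K3
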