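import Pool.Agent.MP_ed46bc_co.K3.Spec

/-! # A rearrangement inequality -/

namespace Pool.Agent.MP_ed46bc_co.K3

open Finset Pool.Agent.MP_ed46bc_co.SP

universe u

lemma rearr_one (x : ℤ) (R : ℕ) (h0 : 0 ≤ x) (h1 : x ≤ R) :
    ∑ t ∈ range R, (if (t : ℤ) < x then (1 : ℤ) else 0) = x := by
  obtain ⟨n, rfl⟩ := Int.eq_ofNat_of_zero_le h0
  have h2 : (range R).filter (fun t : ℕ => (t : ℤ) < n) = range n := by
    ext t
    simp only [mem_filter, mem_range]
    omega
  rw [← sum_filter, h2]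
  simp

lemma rearr_layer {G : Type u} [Fintype G] (r g : G → ℤ) (R : ℕ) (h0 : ∀ v, 0 ≤ r v)
    (h1 : ∀ v, r v ≤ R) :
    ∑ v, r v * g v = ∑ t ∈ range R, ∑ v ∈ univ.filter fun v => (t : ℤ) < r v, g v := by
  simp only [sum_filter]
  rw [sum_comm]
  refine sum_congr rfl fun v _ => ?_
  conv_lhs => rw [← rearr_one (r v) R (h0 v) (h1 v), sum_mul]
  simp

lemma rearr_top {G : Type u} [Fintype G] [DecidableEq G] (r : G → ℤ) (c : ℕ)
    (hc : c ≤ Fintype.card G) : ∃ C : Finset G, C.card = c ∧ ∀ x ∈ C, ∀ y ∉ C, r y ≤ r x := by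
  obtain ⟨C, c1, c2⟩ := exists_max_image (powersetCard c (univ : Finset G)) (fun C => ∑ v ∈ C, r v)
    (powersetCard_nonempty.2 (by simpa using hc))
  have c3 := (mem_powersetCard.1 c1).2
  refine ⟨C, c3, fun x hx y hy => ?_⟩
  have hy' : y ∉ C.erase x := fun h => hy (mem_of_mem_erase h)
  have h1 := c2 (insert y (C.erase x)) (mem_powersetCard.2 ⟨subset_univ _, by
    rw [card_insert_of_notMem hy', card_erase_add_one hx, c3]⟩)
  rw [sum_insert hy', ← add_sum_erase C r hx] at h1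
  linarith

theorem rearr : REARR.{u} := by
  intro G _ _ r w I J B c h0 hJ hc hw hB
  obtain ⟨R, hR⟩ : ∃ R : ℕ, ∀ v, r v ≤ R :=
    ⟨∑ v, (r v).toNat, fun v => (Int.self_le_toNat _).trans (by
      exact_mod_cast single_le_sum (f := fun v => (r v).toNat) (fun _ _ => Nat.zero_le _)
        (mem_univ v))⟩
  rw [rearr_layer r w R h0 hR]
  refine le_trans ?_ (sum_le_sum fun t _ => hw _)
  rw [sum_comm]
  refine sum_le_sum fun i hi => ?_
  rw [← mul_sum]
  refine mul_le_mul_of_nonneg_left ?_ (hJ i hi)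
  obtain ⟨C, c1, c2⟩ := rearr_top r (c i) (hc i hi)
  refine (hB i hi C c1).trans ?_
  rw [← sum_ind_mul]
  simp only [mul_comm (ind Cᶜ _)]
  rw [rearr_layer r _ R h0 hR]
  refine sum_le_sum fun t _ => ?_
  generalize hU : (univ.filter fun v => (t : ℤ) < r v) = U
  have h1 : ∑ v ∈ U, ind Cᶜ v = ((U \ C).card : ℤ) := by
    rw [← filter_notMem_eq_sdiff, card_filter]
    simp [ind]
  rw [h1]
  by_cases h : U ⊆ C
  · rw [sdiff_eq_empty_iff_subset.2 h]
    exact le_max_right _ _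
  · obtain ⟨y, y1, y2⟩ := not_subset.1 h
    have h2 : C ⊆ U := fun x hx => by
      rw [← hU, mem_filter] at y1 ⊢
      exact ⟨mem_univ _, y1.2.trans_le (c2 x hx y y2)⟩
    have h3 := card_sdiff_add_card_eq_card h2
    exact le_trans (by omega) (le_max_left _ _)

end Pool.Agent.MP_ed46bc_co.K3
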