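import Pool.Agent.MP_ed46bc_co.K3.Spec

/-! The largest scale exists. -/

namespace Pool.Agent.MP_ed46bc_co.K3

open Finset Pool.Agent.MP_ed46bc_co.SP
open scoped symmDiff

universe u

variable {G : Type u} [AddCommGroup G] [Fintype G] [DecidableEq G]

/-- A set that is close to a `K`-periodic set, at the scale of its own period, is `K`-periodic. -/
lemma scale_per {H K : AddSubgroup G} {P P' : Finset G} (hP : Per H P) (hP' : Per K P')
    (h : (P ∆ P').card < Nat.card H) : Per K P := by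
  intro x hx g hg
  by_contra hn
  have out : ∀ a : H, x + g + a ∉ P := fun a ha =>
    hn (by simpa using hP _ ha (-(a : G)) (H.neg_mem a.2))
  have ins : ∀ a : H, x + a ∈ P := fun a => hP x hx a a.2
  let φ : H → (P ∆ P' : Finset G) := fun a =>
    if e : x + a ∈ P' then ⟨x + g + a, mem_symmDiff.2 (.inr
      ⟨by rw [add_right_comm]; exact hP' _ e g hg, out a⟩)⟩
    else ⟨x + a, mem_symmDiff.2 (.inl ⟨ins a, e⟩)⟩
  have inj : Function.Injective φ := by
    intro a b e
    have e' := congrArg Subtype.val e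
    by_cases ha : x + a ∈ P' <;> by_cases hb : x + b ∈ P' <;>
      simp only [φ, ha, hb, dif_pos, dif_neg, not_false_eq_true] at e'
    · exact Subtype.ext (add_left_cancel e')
    · exact absurd (e' ▸ ins b) (out a)
    · exact absurd (e' ▸ ins a) (out b)
    · exact Subtype.ext (add_left_cancel e')
  have := Nat.card_le_card_of_injective φ inj
  rw [Nat.card_eq_fintype_card (α := (P ∆ P' : Finset G)), Fintype.card_coe] at this
  omega

theorem scale : SCALE.{u} := by
  intro G _ _ _ A h0 h1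
  let S : Set (AddSubgroup G × Finset G) := {z | Per z.1 z.2 ∧ z.2.Nonempty ∧ z.2 ≠ univ ∧
    2 * (A ∆ z.2).card < Nat.card z.1}
  have hS : S.Nonempty := ⟨(⊥, A), fun x hx h hh => by rwa [AddSubgroup.mem_bot.1 hh, add_zero],
    h0, h1, by simp⟩
  obtain ⟨⟨H, P⟩, ⟨p1, p2, p3, p4⟩, mx⟩ :=
    Set.exists_max_image S (fun z => Nat.card z.1) (Set.toFinite S) hS
  obtain ⟨Q, i1, i2, i3, f, hf, rfl⟩ := exists_quot H
  obtain ⟨W, rfl⟩ := exists_pre f p1
  refine ⟨Q, i1, i2, i3, f, W, hf, ?_, ?_, p4, fun K P' q1 q2 q3 q4 => ?_⟩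
  · obtain ⟨x, hx⟩ := p2
    exact ⟨f x, mem_pre.1 hx⟩
  · rintro rfl
    exact p3 (pre_univ f)
  · have le : Nat.card K ≤ Nat.card f.ker := mx (K, P') ⟨q1, q2, q3, q4⟩
    have tri := card_symmDiff_tri (pre f W) A P'
    rw [symmDiff_comm (pre f W) A] at tri
    have p4' : 2 * (A ∆ pre f W).card < Nat.card f.ker := p4
    have hK : Per K (pre f W) := scale_per (H := f.ker) (P := pre f W) p1 q1 (by omega)
    have hs : Per (f.ker ⊔ K) (pre f W) := fun x hx z hz => by
      obtain ⟨a, ha, b, hb, rfl⟩ := AddSubgroup.mem_sup.1 hz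
      rw [← add_assoc]
      exact hK _ (p1 x hx a ha) b hb
    have le1 : Nat.card f.ker ≤ Nat.card (f.ker ⊔ K : AddSubgroup G) :=
      AddSubgroup.card_le_of_le le_sup_left
    have le2 : Nat.card (f.ker ⊔ K : AddSubgroup G) ≤ Nat.card f.ker :=
      mx (f.ker ⊔ K, pre f W) ⟨hs, p2, p3, lt_of_lt_of_le p4' le1⟩
    have e : f.ker = f.ker ⊔ K := AddSubgroup.eq_of_le_of_card_ge le_sup_left le2
    rw [e]
    exact le_sup_right

end Pool.Agent.MP_ed46bc_co.K3
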