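import Pool.Agent.MP_ed46bc_co.K3.Spec

/-! # Row TAIL: the Pollard bound for `A + A` near the even multiples of the scale -/

namespace Pool.Agent.MP_ed46bc_co.K3

open Finset Pool.Agent.MP_ed46bc_co.SP
open scoped symmDiff

universe u

lemma tail_num {κ e s b c p x : ℕ} (hs : Odd s) (hc : c = κ * (2 * e) + 2 * b) (hp : p = κ * s)
    (h1 : p ≤ c + x) (h2 : c ≤ p + x) : κ ≤ x + 2 * b := by
  obtain ⟨r, rfl⟩ := hs
  rcases le_or_gt e r with h | h
  · have := Nat.mul_le_mul_left κ (show 2 * e + 1 ≤ 2 * r + 1 by omega)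
    rw [mul_add, mul_one] at this
    omega
  · have := Nat.mul_le_mul_left κ (show 2 * r + 1 + 1 ≤ 2 * e by omega)
    rw [mul_add, mul_one] at this
    omega

theorem tail (hS : SS.{u}) : TAIL.{u} := by
  intro G _ _ _ Q _ _ _ f A W hSc hA C i b hC hCA
  by_cases hg : 2 ≤ Gam A A C
  · obtain ⟨K, P₁, P₂, P₃, ⟨p1, p2, p3, t, ht, e⟩, h1, h2⟩ := hS G A A C hg
    have e12 : P₁ = P₂ := by
      refine per_eq p1 p2 ?_
      have := card_symmDiff_tri P₁ A P₂
      rw [symmDiff_comm P₁ A] at this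
      unfold Psi sig at h1
      omega
    subst e12
    have a1 := card_le_add_symmDiff P₃ C
    rw [symmDiff_comm P₃ C] at a1
    have a2 := card_le_add_symmDiff C P₃
    have h3 : 2 * (A ∆ P₁).card + (C ∆ P₃).card < Nat.card K := by
      unfold Psi sig at h1
      omega
    have n1 : P₁.Nonempty := by
      rw [nonempty_iff_ne_empty]
      rintro rfl
      have a3 := card_le_add_symmDiff A ∅
      have a4 : Nat.card K ≤ t * Nat.card K := Nat.le_mul_of_pos_left _ ht.pos
      simp only [card_empty] at a3 e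
      omega
    have n2 : P₁ ≠ univ := by
      rintro rfl
      have a3 := card_le_add_symmDiff univ A
      rw [symmDiff_comm univ A, card_univ] at a3
      have a4 := Nat.le_of_dvd Fintype.card_pos (card_sub_dvd K)
      omega
    obtain ⟨d, hd⟩ := AddSubgroup.card_dvd_of_le (hSc.2.2.2.2 K P₁ p1 n1 n2 (by omega))
    obtain ⟨p, hp⟩ := per_dvd p1
    obtain ⟨s, hs⟩ := per_dvd p3
    have q1 : p + p + s = t := by
      apply Nat.eq_of_mul_eq_mul_left (card_sub_pos K)
      rw [mul_add, mul_add, ← hp, ← hs, e, mul_comm]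
    have q2 : Odd s := by rw [Nat.odd_iff] at ht ⊢; omega
    have q3 := tail_num (e := i * d) (b := b) q2 (by rw [hC, hd]; ring) hs a1 a2
    have q4 : Psi A A C K P₁ P₁ P₃ ≤ 2 * (b : ℤ) := by
      unfold Psi sig
      omega
    nlinarith
  · obtain ⟨t, ht⟩ := Gam_mod A A C
    have e : Gam A A C = 4 * (((A.card : ℤ) + i * Nat.card f.ker + b) ^ 2 + t) := by
      rw [ht, hC]; push_cast; ring
    have := sq_nonneg (b : ℤ)
    omega

end Pool.Agent.MP_ed46bc_co.K3
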