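import Pool.Agent.MP_ed46bc_co.K3.Spec

/-! Row ZQ: the weighted count for an interval with a shorter end in a cyclic group. -/

namespace Pool.Agent.MP_ed46bc_co.K3

open Finset Pool.Agent.MP_ed46bc_co.SP

/-- the weights counted from the start of the interval -/
def zqW (k r : ℤ) (v j : ℕ) : ℤ := if j < v then k else if j = v then r else 0

/-- the weights counted from the end of the interval -/
def zqU (k r : ℤ) (i : ℕ) : ℤ := if i = 0 then r else k

/-- extension by zero to the negative integers -/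
def zqE (P : ℕ → ℤ) (m : ℤ) : ℤ := if 0 ≤ m then P m.toNat else 0

/-- convolution with `zqU` -/
def zqC (k r : ℤ) (P : ℕ → ℤ) (m : ℕ) : ℤ := r * P m + k * ∑ t ∈ range m, P t

lemma zqE_nat (P : ℕ → ℤ) (m : ℕ) : zqE P m = P m := by simp [zqE]

lemma zqE_neg (P : ℕ → ℤ) {m : ℤ} (h : m < 0) : zqE P m = 0 := if_neg (not_le.2 h)

lemma zqE_nonneg {P : ℕ → ℤ} (h : ∀ m, 0 ≤ P m) (m : ℤ) : 0 ≤ zqE P m := by
  unfold zqE
  split_ifs
  exacts [h _, le_rfl]

lemma zq_step (k r : ℤ) (P : ℕ → ℤ) {M : ℤ} {n : ℕ} (h : M < n) :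
    ∑ i ∈ range n, zqU k r i * zqE P (M - i) = zqE (zqC k r P) M := by
  rcases lt_or_ge M 0 with h0 | h0
  · rw [zqE_neg _ h0]
    exact sum_eq_zero fun i _ => by rw [zqE_neg _ (by omega), mul_zero]
  obtain ⟨m, rfl⟩ := Int.eq_ofNat_of_zero_le h0
  rw [← sum_subset (s₁ := range (m + 1)) (range_subset_range.2 (by omega)) fun i _ hi => by
    rw [mem_range] at hi
    rw [zqE_neg _ (by omega), mul_zero]]
  rw [sum_range_succ', zqE_nat, zqC, ← sum_range_reflect P, mul_sum, add_comm]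
  refine congrArg₂ (· + ·) ?_ (sum_congr rfl fun i hi => ?_)
  · simp [zqU, zqE_nat]
  · rw [mem_range] at hi
    rw [show (m : ℤ) - (i + 1 : ℕ) = (m - 1 - i : ℕ) by omega, zqE_nat, zqU, if_neg (by omega)]

lemma zq_three (k r : ℤ) (P : ℕ → ℤ) {M : ℤ} {n : ℕ} (h : M < n) :
    ∑ a ∈ range n, ∑ b ∈ range n, ∑ d ∈ range n,
      zqU k r a * zqU k r b * zqU k r d * zqE P (M - (a + b + d : ℕ)) =
      zqE (zqC k r (zqC k r (zqC k r P))) M := by
  rw [← zq_step k r _ h]
  refine sum_congr rfl fun a _ => ?_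
  rw [← zq_step k r _ (show M - a < n by omega), mul_sum]
  refine sum_congr rfl fun b _ => ?_
  rw [← zq_step k r _ (show M - a - b < n by omega), mul_sum, mul_sum]
  refine sum_congr rfl fun d _ => ?_
  rw [show M - (a + b + d : ℕ) = M - a - b - d by omega]
  ring

lemma zq_agree (k r : ℤ) {P P' : ℕ → ℤ} {v : ℕ} {δ : ℤ}
    (h : ∀ t ≤ v, P t = P' t - if t = v then δ else 0) :
    ∀ t ≤ v, zqC k r P t = zqC k r P' t - if t = v then r * δ else 0 := fun t ht => by
  have e : ∑ s ∈ range t, P s = ∑ s ∈ range t, P' s := sum_congr rfl fun s hs => by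
    rw [mem_range] at hs
    rw [h s (by omega), if_neg (by omega), sub_zero]
  rw [zqC, zqC, e, h t ht]
  split_ifs <;> ring

lemma zq_c1 (k r : ℤ) (m : ℕ) :
    6 * zqC k r (zqC k r (zqC k r fun _ => k)) m = c1 k r m := by
  have h1 : ∀ m : ℕ, zqC k r (fun _ => k) m = r * k + k ^ 2 * m := fun m => by
    simp only [zqC, sum_const, card_range, nsmul_eq_mul]
    ring
  have s1 : ∀ m : ℕ, 2 * ∑ t ∈ range m, zqC k r (fun _ => k) t =
      2 * r * k * m + k ^ 2 * m * (m - 1) := fun m => by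
    induction m with
    | zero => simp
    | succ m ih => rw [sum_range_succ, h1]; push_cast; linear_combination ih
  have h2 : ∀ m : ℕ, 2 * zqC k r (zqC k r fun _ => k) m =
      2 * r ^ 2 * k + 4 * r * k ^ 2 * m + k ^ 3 * m * (m - 1) := fun m => by
    rw [zqC, h1]
    linear_combination k * s1 m
  have s2 : ∀ m : ℕ, 6 * ∑ t ∈ range m, zqC k r (zqC k r fun _ => k) t =
      6 * r ^ 2 * k * m + 6 * r * k ^ 2 * m * (m - 1) + k ^ 3 * m * (m - 1) * (m - 2) := fun m => by
    induction m with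
    | zero => simp
    | succ m ih => rw [sum_range_succ]; push_cast; linear_combination ih + 3 * h2 m
  rw [zqC, c1, if_pos (Int.natCast_nonneg m)]
  linear_combination 3 * r * h2 m + k * s2 m

lemma zq_c2 (k r : ℤ) (m : ℕ) :
    6 * zqC k k (zqC k k (zqC k k (zqU k r))) m = c2 k r m := by
  have h1 : ∀ m : ℕ, zqC k k (zqU k r) m = k * (r + k * m) := fun m => by
    rw [zqC, ← mul_add, add_comm, ← sum_range_succ, sum_range_succ']
    simp only [zqU, Nat.add_one_ne_zero, if_false, if_true, sum_const, card_range, nsmul_eq_mul]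
    ring
  have s1 : ∀ m : ℕ, 2 * ∑ t ∈ range m, zqC k k (zqU k r) t =
      2 * r * k * m + k ^ 2 * m * (m - 1) := fun m => by
    induction m with
    | zero => simp
    | succ m ih => rw [sum_range_succ, h1]; push_cast; linear_combination ih
  have h2 : ∀ m : ℕ, 2 * zqC k k (zqC k k (zqU k r)) m =
      2 * r * k ^ 2 * (m + 1) + k ^ 3 * m * (m + 1) := fun m => by
    rw [zqC, h1]
    linear_combination k * s1 m
  have s2 : ∀ m : ℕ, 6 * ∑ t ∈ range m, zqC k k (zqC k k (zqU k r)) t =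
      3 * r * k ^ 2 * m * (m + 1) + k ^ 3 * (m - 1) * m * (m + 1) := fun m => by
    induction m with
    | zero => simp
    | succ m ih => rw [sum_range_succ]; push_cast; linear_combination ih + 3 * h2 m
  rw [zqC, c2, if_pos (Int.natCast_nonneg m)]
  linear_combination 3 * k * h2 m + k * s2 m

lemma zq_sum {h v : ℕ} (hv : v ≤ h) (k r : ℤ) (c : ZMod (2 * h + 1)) (g : ZMod (2 * h + 1) → ℤ) :
    ∑ x, wt (2 * h + 1) k r v c x * g x = ∑ j ∈ range (v + 1), zqW k r v j * g (c + j) := by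
  have hval : ∀ j ∈ range (v + 1), ((j : ℕ) : ZMod (2 * h + 1)).val = j := fun j hj =>
    ZMod.val_cast_of_lt (by rw [mem_range] at hj; omega)
  refine (sum_of_injOn (fun j : ℕ => c + (j : ZMod (2 * h + 1))) (fun a ha b hb e => ?_)
    (fun _ _ => mem_univ _) (fun x _ hx => ?_) fun j hj => ?_).symm
  · rw [← hval a ha, ← hval b hb, add_left_cancel e]
  · have : ¬ (x - c).val ≤ v := fun hle => hx ⟨(x - c).val, by simpa using Nat.lt_succ_of_le hle,
      by simp⟩
    rw [wt, if_neg (by omega), if_neg (by omega), zero_mul]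
  · rw [wt, add_sub_cancel_left, hval j hj, zqW]

lemma zq_last {h v s : ℕ} (hv : v ≤ h) (hs : s ≤ 3 * v) {k r : ℤ} (h0 : 0 ≤ r) (h1 : r ≤ k)
    {c : ZMod (2 * h + 1)} (hc : 2 * c + ((v + h : ℕ) : ZMod (2 * h + 1)) = 0) :
    wt (2 * h + 1) k r v c (3 * c + s) ≤
      zqE (zqW k r v) ((s : ℤ) - v - h) + zqE (zqU k r) (2 * (v : ℤ) - h - 1 - s) := by
  have hU : ∀ m, 0 ≤ zqU k r m := fun m => by unfold zqU; split_ifs <;> omega
  rcases le_or_gt (v + h) s with h2 | h2
  · obtain ⟨j, rfl⟩ := Nat.exists_eq_add_of_le h2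
    have e : 3 * c + ((v + h + j : ℕ) : ZMod (2 * h + 1)) - c = j := by
      rw [Nat.cast_add]
      linear_combination hc
    rw [wt, e, ZMod.val_cast_of_lt (by omega), show ((v + h + j : ℕ) : ℤ) - v - h = j by omega,
      zqE_nat]
    exact le_add_of_nonneg_right (zqE_nonneg hU _)
  · obtain ⟨j, hj⟩ := Nat.exists_eq_add_of_le (show v ≤ s + h + 1 by omega)
    have e : 3 * c + (s : ZMod (2 * h + 1)) - c = j := by
      have e1 : ((s + h + 1 : ℕ) : ZMod (2 * h + 1)) = (v + j : ℕ) := by rw [hj]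
      have e2 := ZMod.natCast_self (2 * h + 1)
      push_cast at e1 e2 hc
      linear_combination hc + e1 - e2
    rw [wt, e, ZMod.val_cast_of_lt (by omega), zqE_neg _ (by omega), zero_add]
    split_ifs with h3 h4
    · rw [show 2 * (v : ℤ) - h - 1 - s = (v - j : ℕ) by omega, zqE_nat, zqU, if_neg (by omega)]
    · rw [show 2 * (v : ℤ) - h - 1 - s = (0 : ℕ) by omega, zqE_nat, zqU, if_pos rfl]
    · exact zqE_nonneg hU _

theorem zq : ZQ := by
  intro h v k r c hv h0 h1 hc
  have hk : 0 ≤ k := h0.trans h1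
  have hU : ∀ m, 0 ≤ zqU k r m := fun m => by unfold zqU; split_ifs <;> omega
  have hW : ∀ m, 0 ≤ zqW k r v m ∧ zqW k r v m ≤ zqU k k m := fun m => by
    unfold zqW zqU; split_ifs <;> omega
  have e0 : Q4 (wt (2 * h + 1) k r v c) (wt (2 * h + 1) k r v c) (wt (2 * h + 1) k r v c)
      (wt (2 * h + 1) k r v c) = ∑ a ∈ range (v + 1), ∑ b ∈ range (v + 1), ∑ d ∈ range (v + 1),
        zqW k r v a * zqW k r v b * zqW k r v d *
          wt (2 * h + 1) k r v c (3 * c + (a + b + d : ℕ)) := by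
    simp only [Q4, mul_assoc, ← mul_sum]
    rw [zq_sum hv]
    refine sum_congr rfl fun a _ => congrArg _ ?_
    rw [zq_sum hv]
    refine sum_congr rfl fun b _ => congrArg _ ?_
    rw [zq_sum hv]
    refine sum_congr rfl fun d _ => congrArg _ (congrArg _ ?_)
    push_cast
    ring
  have eA : ∑ a ∈ range (v + 1), ∑ b ∈ range (v + 1), ∑ d ∈ range (v + 1),
      zqW k r v a * zqW k r v b * zqW k r v d * zqE (zqW k r v) (((a + b + d : ℕ) : ℤ) - v - h) =
      zqE (zqC k r (zqC k r (zqC k r (zqW k r v)))) (2 * (v : ℤ) - h) := by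
    have hw : ∀ i ∈ range (v + 1), zqW k r v (v + 1 - 1 - i) = zqU k r i := fun i hi => by
      rw [mem_range] at hi
      unfold zqW zqU
      split_ifs <;> omega
    rw [← zq_three k r _ (n := v + 1) (by omega), ← sum_range_reflect]
    refine sum_congr rfl fun a ha => ?_
    rw [← sum_range_reflect]
    refine sum_congr rfl fun b hb => ?_
    rw [← sum_range_reflect]
    refine sum_congr rfl fun d hd => ?_
    rw [hw a ha, hw b hb, hw d hd]
    rw [mem_range] at ha hb hd
    congr 2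
    omega
  have eB := zq_three k k (zqU k r) (M := 2 * (v : ℤ) - h - 1) (n := v + 1) (by omega)
  have fA : 6 * zqE (zqC k r (zqC k r (zqC k r (zqW k r v)))) (2 * (v : ℤ) - h) =
      c1 k r (2 * (v : ℤ) - h) - (if v = h then 6 * r ^ 3 * (k - r) else 0) := by
    rcases lt_or_ge (2 * (v : ℤ) - h) 0 with h2 | h2
    · rw [zqE_neg _ h2, c1, if_neg (by omega), if_neg (by omega)]
      rfl
    obtain ⟨m, hm⟩ := Int.eq_ofNat_of_zero_le h2
    have := zq_agree k r (zq_agree k r (zq_agree k r (P := zqW k r v) (P' := fun _ => k) (v := v)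
      (δ := k - r) fun t ht => by unfold zqW; split_ifs <;> omega)) m (by omega)
    rw [hm, zqE_nat, this, ← zq_c1]
    by_cases e : v = h
    · rw [if_pos e, if_pos (by omega)]
      ring
    · rw [if_neg e, if_neg (by omega)]
      ring
  have fB : 6 * zqE (zqC k k (zqC k k (zqC k k (zqU k r)))) (2 * (v : ℤ) - h - 1) =
      c2 k r (2 * (v : ℤ) - h - 1) := by
    rcases lt_or_ge (2 * (v : ℤ) - h - 1) 0 with h2 | h2
    · rw [zqE_neg _ h2, c2, if_neg (by omega)]
      rfl
    obtain ⟨m, hm⟩ := Int.eq_ofNat_of_zero_le h2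
    rw [hm, zqE_nat, zq_c2]
  rw [e0, add_sub_right_comm, ← fA, ← fB, ← mul_add, ← eA, ← eB]
  simp only [← sum_add_distrib]
  refine mul_le_mul_of_nonneg_left (sum_le_sum fun a ha => sum_le_sum fun b hb =>
    sum_le_sum fun d hd => ?_) (by norm_num)
  rw [mem_range] at ha hb hd
  have p : 0 ≤ zqW k r v a * zqW k r v b * zqW k r v d :=
    mul_nonneg (mul_nonneg (hW a).1 (hW b).1) (hW d).1
  have q : zqW k r v a * zqW k r v b * zqW k r v d ≤ zqU k k a * zqU k k b * zqU k k d :=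
    mul_le_mul (mul_le_mul (hW a).2 (hW b).2 (hW b).1 ((hW a).1.trans (hW a).2)) (hW d).2 (hW d).1
      (mul_nonneg ((hW a).1.trans (hW a).2) ((hW b).1.trans (hW b).2))
  refine (mul_le_mul_of_nonneg_left (zq_last hv (s := a + b + d) (by omega) h0 h1 hc) p).trans ?_
  rw [mul_add]
  exact add_le_add le_rfl (mul_le_mul_of_nonneg_right q (zqE_nonneg hU _))

end Pool.Agent.MP_ed46bc_co.K3
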