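import Pool.Agent.MP_ed46bc_co.SP.All
import Pool.Agent.MP_ed46bc_co.K3.COUNT
import Pool.Agent.MP_ed46bc_co.K3.REARR
import Pool.Agent.MP_ed46bc_co.K3.SCALE
import Pool.Agent.MP_ed46bc_co.K3.TAIL
import Pool.Agent.MP_ed46bc_co.K3.PRIM
import Pool.Agent.MP_ed46bc_co.K3.LBW
import Pool.Agent.MP_ed46bc_co.K3.CORE
import Pool.Agent.MP_ed46bc_co.K3.NUM
import Pool.Agent.MP_ed46bc_co.K3.ZQ
import Pool.Agent.MP_ed46bc_co.K3.FIB
import Pool.Agent.MP_ed46bc_co.K3.CYC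
import Pool.Agent.MP_ed46bc_co.K3.CONS
import Pool.Agent.MP_ed46bc_co.K3.NUM2
import Pool.Agent.MP_ed46bc_co.K3.Fin

/-!
# Assembly
-/

namespace Pool.Agent.MP_ed46bc_co.K3

open Finset Pool.Agent.MP_ed46bc_co.SP

universe u

theorem all_min (G : Type u) [AddCommGroup G] [Fintype G] [DecidableEq G]
    (hodd : Odd (Fintype.card G)) (m : ℕ) (hm : m ≤ Fintype.card G) :
    (24 * ((m : ℤ) ^ 4 - (min m (Fintype.card G - m) : ℕ) ^ 4)
        + Fintype.card G * Phi (Fintype.card G) (min m (Fintype.card G - m))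
      ≤ 24 * Fintype.card G * ((sInf {p : ℕ | ∃ A : Finset G, A.card = m ∧
        (univ.filter fun a : Fin 3 → G => (∀ i, a i ∈ A) ∧ ∑ i, a i ∈ A).card = p} : ℕ) : ℤ)) ∧
    (IsAddCyclic G → 24 * Fintype.card G * ((sInf {p : ℕ | ∃ A : Finset G, A.card = m ∧
        (univ.filter fun a : Fin 3 → G => (∀ i, a i ∈ A) ∧ ∑ i, a i ∈ A).card = p} : ℕ) : ℤ) =
      24 * ((m : ℤ) ^ 4 - (min m (Fintype.card G - m) : ℕ) ^ 4)
        + Fintype.card G * Phi (Fintype.card G) (min m (Fintype.card G - m))) := by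
  obtain ⟨h1, h2⟩ := fin_all count_thm scale
    (core_thm count_thm rearr (tail all_ss) (prim all_ss) lbw) num (con zq fib cyc) num2 hodd m hm
  obtain ⟨A₀, -, hA₀⟩ := exists_subset_card_eq (s := (univ : Finset G)) (n := m)
    (by rwa [card_univ])
  obtain ⟨A, hA, hp⟩ := Nat.sInf_mem (s := {p : ℕ | ∃ A : Finset G, A.card = m ∧
      (univ.filter fun a : Fin 3 → G => (∀ i, a i ∈ A) ∧ ∑ i, a i ∈ A).card = p})
    ⟨_, A₀, hA₀, rfl⟩
  have low := h1 A hA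
  rw [← (count_thm G A).1, hp] at low
  refine ⟨low, fun hc => le_antisymm ?_ low⟩
  obtain ⟨B, hB, hP⟩ := h2 hc
  have h3 : sInf {p : ℕ | ∃ A : Finset G, A.card = m ∧
      (univ.filter fun a : Fin 3 → G => (∀ i, a i ∈ A) ∧ ∑ i, a i ∈ A).card = p} ≤
      (univ.filter fun a : Fin 3 → G => (∀ i, a i ∈ B) ∧ ∑ i, a i ∈ B).card :=
    Nat.sInf_le ⟨B, hB, rfl⟩
  refine le_trans (mul_le_mul_of_nonneg_left ?_ (by positivity)) hP
  rw [← (count_thm G B).1]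
  exact_mod_cast h3

end Pool.Agent.MP_ed46bc_co.K3
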