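import Pool.Agent.MP_ed46bc_co.K3.Spec

/-!
# Row CYC: quotients of a cyclic group, and free sets in the kernel
-/

namespace Pool.Agent.MP_ed46bc_co.K3

open Finset Pool.Agent.MP_ed46bc_co.SP

universe u

lemma cyc_eq {k q a b : ℕ} (hq : 0 < q)
    (h : ((q * a : ℕ) : ZMod (k * q)) = ((q * b : ℕ) : ZMod (k * q))) (h1 : a < b + k)
    (h2 : b < a + k) : a = b := by
  rw [ZMod.natCast_eq_natCast_iff, mul_comm k q] at h
  have h3 := Nat.ModEq.mul_left_cancel' hq.ne' h
  refine h3.eq_of_abs_lt (abs_lt.2 ⟨?_, ?_⟩) <;> omega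

theorem cyc : CYC.{u} := by
  intro G _ _ _ hG k q hc
  have h0 : 0 < k * q := hc ▸ Fintype.card_pos
  have hq : 0 < q := Nat.pos_of_mul_pos_left h0
  have hk : 0 < k := Nat.pos_of_mul_pos_right h0
  have : NeZero q := ⟨hq.ne'⟩
  let e : ZMod (k * q) ≃+ G := addEquivOfAddCyclicCardEq
    (by rw [Nat.card_zmod, Nat.card_eq_fintype_card, hc])
  let c : ZMod (k * q) →+* ZMod q := ZMod.castHom (Dvd.intro_left k rfl) (ZMod q)
  let p : G →+ ZMod q := c.toAddMonoidHom.comp e.symm.toAddMonoidHom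
  have hp : Function.Surjective p :=
    (ZMod.castHom_surjective (Dvd.intro_left k rfl)).comp e.symm.surjective
  refine ⟨p, hp, ?_, fun s hs => ?_⟩
  · have h1 := card_G hp
    rw [hc, ZMod.card] at h1
    exact (Nat.eq_of_mul_eq_mul_right hq h1).symm
  let φ : ℕ → G := fun j => e ((q * j : ℕ) : ZMod (k * q))
  have ha : ∀ a b, φ (a + b) = φ a + φ b := fun a b => by
    simp only [φ, mul_add, Nat.cast_add, map_add]
  have hi : ∀ a b, φ a = φ b → a < b + k → b < a + k → a = b := fun a b h =>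
    cyc_eq hq (e.injective h)
  refine ⟨(Ico ((s + 1) / 2) ((s + 1) / 2 + s)).image φ, fun x hx => ?_, ?_, ?_⟩
  · obtain ⟨j, -, rfl⟩ := mem_image.1 hx
    show c (e.symm (e _)) = 0
    rw [e.symm_apply_apply, map_natCast, Nat.cast_mul, ZMod.natCast_self, zero_mul]
  · rw [card_image_of_injOn, Nat.card_Ico, Nat.add_sub_cancel_left]
    intro a h1 b h2 h
    rw [mem_coe, mem_Ico] at h1 h2
    exact hi a b h (by omega) (by omega)
  · refine sum_eq_zero fun x _ => sum_eq_zero fun y _ => sum_eq_zero fun z _ => ?_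
    by_contra hn
    simp only [ind, mul_eq_zero, ite_eq_right_iff, one_ne_zero, imp_false, not_or, not_not,
      mem_image, mem_Ico] at hn
    obtain ⟨⟨⟨⟨a, h1, rfl⟩, b, h2, rfl⟩, d, h3, rfl⟩, j, h4, h5⟩ := hn
    rw [← ha, ← ha] at h5
    have h7 : a + b + d < j + k := by omega
    have := hi _ _ h5 (by omega) h7
    omega

end Pool.Agent.MP_ed46bc_co.K3
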