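import Pool.Agent.MP_ed46bc_co.SP.Quot

/-!
# Solutions of `x + y + z = w` in groups of odd order: definitions and row statements

See the note d14_ed46bc_k3_h75.md. Every row proves one statement of this file from the statements
listed as its hypotheses.
-/

namespace Pool.Agent.MP_ed46bc_co.K3

open Finset Pool.Agent.MP_ed46bc_co.SP
open scoped symmDiff

universe u v

section Defs

variable {G : Type u} [AddCommGroup G] [Fintype G] [DecidableEq G]
variable {Q : Type v} [AddCommGroup Q] [Fintype Q] [DecidableEq Q]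

/-- The form counting solutions of `x + y + z = w`. -/
def Q4 (f₁ f₂ f₃ f₀ : G → ℤ) : ℤ := ∑ x, ∑ y, ∑ z, f₁ x * f₂ y * f₃ z * f₀ (x + y + z)

/-- Number of solutions of `x + y + z = w` in `A`. -/
def P4 (A : Finset G) : ℤ := Q4 (ind A) (ind A) (ind A) (ind A)

/-- `f.ker` is the largest scale of `A`, with base `W`. -/
def Sc (f : G →+ Q) (A : Finset G) (W : Finset Q) : Prop :=
  Function.Surjective f ∧ W.Nonempty ∧ W ≠ univ ∧ 2 * (A ∆ pre f W).card < Nat.card f.ker ∧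
    ∀ (K : AddSubgroup G) (P : Finset G), Per K P → P.Nonempty → P ≠ univ →
      2 * (A ∆ P).card < Nat.card K → K ≤ f.ker

/-- Pollard bounds for `W - W` and for the sets at distance one from `W`. -/
def Prim (W : Finset Q) : Prop :=
  ∀ (Y : Finset Q) (e : ℕ), Y.card = 2 * e + 1 →
    T Y W (ng W) ≤ (W.card : ℤ) ^ 2 - max ((W.card : ℤ) - e) 0 * (max ((W.card : ℤ) - e) 0 - 1) ∧
    (∀ x, x ∉ W → T Y (insert x W) (ng W) ≤
      (W.card : ℤ) * (W.card + 1) - max ((W.card : ℤ) - e) 0 ^ 2) ∧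
    (∀ x, x ∈ W → T Y (W.erase x) (ng W) ≤
      (W.card : ℤ) * (W.card - 1) - max ((W.card : ℤ) - e - 1) 0 ^ 2)

end Defs

/-- Slopes of the convex minorant. -/
def lam (k u α β N : ℕ) : ℤ :=
  if N = 0 then (α : ℤ) else (k : ℤ) * N + α - β - (if N = u then (α : ℤ) + β else 0)

/-- Values of the convex minorant at its break points, divided by `k`. -/
def om (k α β N : ℕ) : ℤ :=
  (k : ℤ) * N * (N - 1) + 2 * ((α : ℤ) - β) * N + (if N = 0 then 0 else 2 * (β : ℤ))

/-- `b_N = (2u - h - N) k + α - β`. -/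
def bb (k h u α β N : ℕ) : ℤ := (2 * (u : ℤ) - h - N) * k + α - β

/-- The lower bound at one scale. -/
def core (k h u α β : ℕ) : ℤ :=
  (α : ℤ) * (bb k h u α β 0 * max (bb k h u α β 0 - 2 * β) 0)
    + (k : ℤ) * ∑ N ∈ Icc 1 u, max (bb k h u α β N) 0 ^ 2
    - (β : ℤ) * max (bb k h u α β 1) 0 ^ 2 - ((α : ℤ) + β) * max (bb k h u α β u) 0 ^ 2

/-- The gain at scale `k`, for `X = 4a - n` and signed remainder `s`; `c` tells whether the
partial coset is the subgroup itself. -/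
def gainZ (X k s : ℤ) (c : Prop) [Decidable c] : ℤ :=
  X * (k ^ 2 - 12 * |s| * (k - |s|)) - 4 * s * (k - |s|) * (k - 2 * |s|)
    + (if c then 24 * s ^ 3 else 0)

/-- Six times the number of weighted solutions without wrap. -/
def c1 (k r M : ℤ) : ℤ :=
  if 0 ≤ M then k * (6 * r ^ 3 + 18 * r ^ 2 * k * M + 9 * r * k ^ 2 * M * (M - 1)
    + k ^ 3 * M * (M - 1) * (M - 2)) else 0

/-- Six times the number of weighted solutions with wrap. -/
def c2 (k r M : ℤ) : ℤ :=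
  if 0 ≤ M then k ^ 3 * (3 * r * (M + 2) * (M + 1) + k * (M + 2) * (M + 1) * M) else 0

/-- Fibre sizes of an interval of `v` cosets followed by `r` points of the next coset. -/
def wt (q : ℕ) (k r : ℤ) (v : ℕ) (c x : ZMod q) : ℤ :=
  if (x - c).val < v then k else if (x - c).val = v then r else 0

/-! ## Row statements -/

/-- Row COUNT. -/
def COUNT : Prop :=
  ∀ (G : Type u) [AddCommGroup G] [Fintype G] [DecidableEq G] (A : Finset G),
    (((univ.filter fun a : Fin 3 → G => (∀ i, a i ∈ A) ∧ ∑ i, a i ∈ A).card : ℕ) : ℤ) = P4 A ∧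
    P4 A = ∑ v, L A A v * L A (ng A) v ∧
    (Fintype.card G : ℤ) * P4 Aᶜ =
      (Fintype.card G : ℤ) * P4 A + ((Fintype.card G : ℤ) - A.card) ^ 4 - (A.card : ℤ) ^ 4

/-- Row REARR: a rearrangement inequality. -/
def REARR : Prop :=
  ∀ (G : Type u) [Fintype G] [DecidableEq G] (r w : G → ℤ) (I : Finset ℕ) (J B : ℕ → ℤ)
    (c : ℕ → ℕ), (∀ v, 0 ≤ r v) → (∀ i ∈ I, 0 ≤ J i) → (∀ i ∈ I, c i ≤ Fintype.card G) →
    (∀ C : Finset G, ∑ i ∈ I, J i * max ((C.card : ℤ) - c i) 0 ≤ ∑ v ∈ C, w v) →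
    (∀ i ∈ I, ∀ C : Finset G, C.card = c i → B i ≤ ∑ v ∈ Cᶜ, r v) →
    ∑ i ∈ I, J i * B i ≤ ∑ v, r v * w v

/-- Row SCALE: the largest scale exists. -/
def SCALE : Prop :=
  ∀ (G : Type u) [AddCommGroup G] [Fintype G] [DecidableEq G] (A : Finset G),
    A.Nonempty → A ≠ univ →
    ∃ (Q : Type u) (_ : AddCommGroup Q) (_ : Fintype Q) (_ : DecidableEq Q) (f : G →+ Q)
      (W : Finset Q), Sc f A W

/-- Row TAIL: Pollard bound for `A + A` near the even multiples of the scale. -/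
def TAIL : Prop :=
  ∀ (G : Type u) [AddCommGroup G] [Fintype G] [DecidableEq G]
    (Q : Type u) [AddCommGroup Q] [Fintype Q] [DecidableEq Q] (f : G →+ Q)
    (A : Finset G) (W : Finset Q), Sc f A W → 2 * A.card ≤ Fintype.card G →
    ∀ (C : Finset G) (i b : ℕ), C.card = 2 * i * Nat.card f.ker + 2 * b → C.card ≤ 2 * A.card →
      Gam A A C ≤ 4 * (b : ℤ) ^ 2

/-- Row PRIM. -/
def PRIM : Prop :=
  ∀ (G : Type u) [AddCommGroup G] [Fintype G] [DecidableEq G]
    (Q : Type u) [AddCommGroup Q] [Fintype Q] [DecidableEq Q] (f : G →+ Q)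
    (A : Finset G) (W : Finset Q), Sc f A W → 2 * W.card < Fintype.card Q → Prim W

/-- Row LBW: linear pieces of the lower bound for sums of the difference function. -/
def LBW : Prop :=
  ∀ (G : Type u) [AddCommGroup G] [Fintype G] [DecidableEq G]
    (Q : Type u) [AddCommGroup Q] [Fintype Q] [DecidableEq Q] (f : G →+ Q)
    (A : Finset G) (W : Finset Q) (k h u α β : ℕ), Function.Surjective f → Nat.card f.ker = k →
    Fintype.card Q = 2 * h + 1 → W.card = u → 1 ≤ u → u ≤ h → (A \ pre f W).card = α →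
    (pre f W \ A).card = β → 2 * (α + β) < k → Prim W →
    ∀ m : ℕ, m ≤ u → ∀ C : Finset G,
      lam k u α β m * ((C.card : ℤ) - 2 * ((h : ℤ) - u + m) * k) + (k : ℤ) * om k α β m
        - 2 * (α : ℤ) * β ≤ ∑ v ∈ C, L A (ng A) v

/-- Row CORE: the lower bound at the largest scale. -/
def CORE : Prop :=
  ∀ (G : Type u) [AddCommGroup G] [Fintype G] [DecidableEq G]
    (Q : Type u) [AddCommGroup Q] [Fintype Q] [DecidableEq Q] (f : G →+ Q)
    (A : Finset G) (W : Finset Q) (k h u α β : ℕ), Sc f A W → Nat.card f.ker = k →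
    Fintype.card Q = 2 * h + 1 → W.card = u → u ≤ h → (A \ pre f W).card = α →
    (pre f W \ A).card = β → 2 * A.card ≤ Fintype.card G → core k h u α β ≤ P4 A

/-- Row NUM: the bound at one scale against the closed formula. -/
def NUM : Prop :=
  ∀ (k h u α β : ℕ) (a X p : ℤ), 1 ≤ u → u ≤ h → 2 * (α + β) < k →
    a = (u : ℤ) * k + α - β → X = 4 * a - (2 * (h : ℤ) + 1) * k → 1 ≤ X → 0 ≤ p →
    core k h u α β ≤ p →
    X ^ 3 - gainZ X k ((α : ℤ) - β) ((h : ℤ) * k < a) ≤ 24 * p ∨ X ^ 3 - X ≤ 24 * p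

/-- Row ZQ: the weighted count for an interval with a partial end in a cyclic group. -/
def ZQ : Prop :=
  ∀ (h v : ℕ) (k r : ℤ) (c : ZMod (2 * h + 1)), v ≤ h → 0 ≤ r → r ≤ k →
    2 * c + ((v + h : ℕ) : ZMod (2 * h + 1)) = 0 →
    6 * Q4 (wt (2 * h + 1) k r v c) (wt (2 * h + 1) k r v c) (wt (2 * h + 1) k r v c)
        (wt (2 * h + 1) k r v c) ≤
      c1 k r (2 * (v : ℤ) - h) + c2 k r (2 * (v : ℤ) - h - 1)
        - (if v = h then 6 * r ^ 3 * (k - r) else 0)

/-- Row FIB: passing to fibre sizes. -/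
def FIB : Prop :=
  ∀ (G : Type u) [AddCommGroup G] [Fintype G] [DecidableEq G]
    (Q : Type) [AddCommGroup Q] [Fintype Q] [DecidableEq Q] (f : G →+ Q)
    (W : Finset Q) (S : Finset G) (y : Q), Function.Surjective f → y ∉ W → (∀ x ∈ S, f x = y) →
    (Nat.card f.ker : ℤ) * P4 (pre f W ∪ S) =
      Q4 (cnt f (pre f W ∪ S)) (cnt f (pre f W ∪ S)) (cnt f (pre f W ∪ S)) (cnt f (pre f W ∪ S))
        + (Nat.card f.ker : ℤ) * P4 S - (if y + y = 0 then (S.card : ℤ) ^ 4 else 0)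

/-- Row CYC: quotients of a cyclic group, and free sets in the kernel. -/
def CYC : Prop :=
  ∀ (G : Type u) [AddCommGroup G] [Fintype G] [DecidableEq G], IsAddCyclic G →
    ∀ k q : ℕ, Fintype.card G = k * q →
    ∃ p : G →+ ZMod q, Function.Surjective p ∧ Nat.card p.ker = k ∧
      ∀ s : ℕ, 4 * s ≤ k + 1 → ∃ S : Finset G, (∀ x ∈ S, p x = 0) ∧ S.card = s ∧ P4 S = 0

/-- Row CON: the construction. -/
def CON : Prop :=
  ∀ (G : Type u) [AddCommGroup G] [Fintype G] [DecidableEq G], IsAddCyclic G →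
    ∀ k h v r : ℕ, Fintype.card G = k * (2 * h + 1) → v ≤ h → r ≤ k →
    (v = h → 4 * r ≤ k + 1) →
    ∃ A : Finset G, A.card = v * k + r ∧
      6 * (k : ℤ) * P4 A ≤ c1 k r (2 * (v : ℤ) - h) + c2 k r (2 * (v : ℤ) - h - 1)
        - (if v = h then 6 * (r : ℤ) ^ 3 * k else 0)

/-- Row NUM2: the value of the construction against the closed formula. -/
def NUM2 : Prop :=
  ∀ (k h u : ℕ) (s a X : ℤ), 1 ≤ u → u ≤ h → 2 * |s| < k → a = (u : ℤ) * k + s →
    X = 4 * a - (2 * (h : ℤ) + 1) * k → 1 ≤ X →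
    (0 ≤ s → 4 * (c1 k s (2 * (u : ℤ) - h) + c2 k s (2 * (u : ℤ) - h - 1)
        - (if u = h then 6 * s ^ 3 * k else 0)) ≤
      (k : ℤ) * max 0 (X ^ 3 - gainZ X k s ((h : ℤ) * k < a))) ∧
    (s < 0 → 4 * (c1 k (k + s) (2 * (u : ℤ) - h - 2) + c2 k (k + s) (2 * (u : ℤ) - h - 3)) ≤
      (k : ℤ) * max 0 (X ^ 3 - gainZ X k s ((h : ℤ) * k < a))) ∧
    (u = h → (k : ℤ) + 1 < 4 * s → gainZ X k s ((h : ℤ) * k < a) < 0)

end Pool.Agent.MP_ed46bc_co.K3
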